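import Pool.Agent.H888R2.KT.Defs
import Pool.Agent.H888R2.KC.A1
import Pool.Agent.H888R2.KC.A5

/-!
# Log-concave densities invariant under a set of linear isometries: basic constructions
-/

set_option autoImplicit false

namespace Pool.Agent.TH591.TT

open MeasureTheory Set
open scoped ENNReal InnerProductSpace
open Pool.Agent.H212R2.KLS (mu Bdd ev gr)
open Pool.Agent.H888R2.KC (dl ev_dl)
open Pool.Agent.H888R2.KC.A5x (differentiable_ev)
open Pool.Agent.H888R2.KT (LC St tw)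

/-- `ℝ^κ` -/
abbrev V (κ : Type) : Type := EuclideanSpace ℝ κ

/-- log-concave density invariant under the isometries in `G` -/
structure GD {κ : Type} [Fintype κ] (G : Set (V κ ≃ₗᵢ[ℝ] V κ)) (ρ : V κ → ℝ) : Prop where
  nonneg : ∀ x, 0 ≤ ρ x
  meas : Measurable ρ
  logc : ∀ x y : V κ, ∀ t : ℝ, 0 < t → t < 1 → ρ x ^ (1 - t) * ρ y ^ t ≤ ρ ((1 - t) • x + t • y)
  inv : ∀ g ∈ G, ∀ x, ρ (g x) = ρ x

section basic

variable {κ : Type} [Fintype κ] {G : Set (V κ ≃ₗᵢ[ℝ] V κ)} {ρ : V κ → ℝ}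

theorem GD.map_mu (hρ : GD G ρ) (g : V κ ≃ₗᵢ[ℝ] V κ) (hg : g ∈ G) : (mu ρ).map g = mu ρ := by
  have hmp := g.measurePreserving
  ext s hs
  rw [Measure.map_apply hmp.measurable hs]
  unfold mu
  rw [withDensity_apply _ (hmp.measurable hs), withDensity_apply _ hs,
    ← hmp.setLIntegral_comp_preimage hs hρ.meas.ennreal_ofReal]
  simp only [hρ.inv g hg]

theorem GD.indicator (hρ : GD G ρ) (B : Set (V κ)) (hB : Convex ℝ B) (hBm : MeasurableSet B)
    (hBi : ∀ g ∈ G, ∀ x, g x ∈ B ↔ x ∈ B) : GD G (B.indicator ρ) where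
  nonneg x := indicator_nonneg (fun x _ => hρ.nonneg x) x
  meas := hρ.meas.indicator hBm
  logc x y t ht0 ht1 := by
    have hn : 0 ≤ B.indicator ρ ((1 - t) • x + t • y) :=
      indicator_nonneg (fun x _ => hρ.nonneg x) _
    by_cases hx : x ∈ B
    · by_cases hy : y ∈ B
      · have hz : (1 - t) • x + t • y ∈ B := hB hx hy (by linarith) ht0.le (by ring)
        rw [indicator_of_mem hx, indicator_of_mem hy, indicator_of_mem hz]
        exact hρ.logc x y t ht0 ht1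
      · rw [indicator_of_notMem hy, Real.zero_rpow ht0.ne', mul_zero]
        exact hn
    · rw [indicator_of_notMem hx, Real.zero_rpow (by linarith : 1 - t ≠ 0), zero_mul]
      exact hn
  inv g hg x := by
    by_cases hx : x ∈ B
    · rw [indicator_of_mem hx, indicator_of_mem ((hBi g hg x).2 hx), hρ.inv g hg]
    · rw [indicator_of_notMem hx, indicator_of_notMem (fun h => hx ((hBi g hg x).1 h))]

theorem GD.smul (h : GD G ρ) (c : ℝ) (hc : 0 ≤ c) : GD G (fun x => c * ρ x) where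
  nonneg x := mul_nonneg hc (h.nonneg x)
  meas := h.meas.const_mul c
  logc x y t ht0 ht1 := by
    have h1 := h.logc x y t ht0 ht1
    rw [Real.mul_rpow hc (h.nonneg x), Real.mul_rpow hc (h.nonneg y)]
    have h2 : c ^ (1 - t) * c ^ t ≤ c := by
      rcases hc.eq_or_lt with h3 | h3
      · rw [← h3, Real.zero_rpow ht0.ne']
        simp
      · rw [← Real.rpow_add h3]
        simp
    calc c ^ (1 - t) * ρ x ^ (1 - t) * (c ^ t * ρ y ^ t)
        = (c ^ (1 - t) * c ^ t) * (ρ x ^ (1 - t) * ρ y ^ t) := by ring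
      _ ≤ c * ρ ((1 - t) • x + t • y) := by
        apply mul_le_mul h2 h1 _ hc
        exact mul_nonneg (Real.rpow_nonneg (h.nonneg x) _) (Real.rpow_nonneg (h.nonneg y) _)
  inv g hg x := by rw [h.inv g hg x]

theorem GD.shift (h : GD G ρ) (a : V κ) (ha : ∀ g ∈ G, g a = a) : GD G (fun x => ρ (x + a)) where
  nonneg x := h.nonneg _
  meas := h.meas.comp (measurable_add_const a)
  logc x y t ht0 ht1 := by
    have h2 := h.logc (x + a) (y + a) t ht0 ht1
    have h3 : (1 - t) • (x + a) + t • (y + a) = (1 - t) • x + t • y + a := by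
      module
    rw [h3] at h2
    exact h2
  inv g hg x := by
    have h2 : g x + a = g (x + a) := by rw [map_add, ha g hg]
    show ρ (g x + a) = ρ (x + a)
    rw [h2]
    exact h.inv g hg _

theorem tw_cont {q : ℕ} (e : Fin q → V κ) (K : ℝ) (τ : EuclideanSpace ℝ (Fin q)) :
    Continuous (tw e K τ) := by
  unfold tw
  fun_prop

theorem GD.tilt {q : ℕ} {e : Fin q → V κ} (he : ∀ g ∈ G, ∀ j x, ⟪e j, g x⟫_ℝ = ⟪e j, x⟫_ℝ)
    (hρ : GD G ρ) (K : ℝ) (hK : 0 < K) (τ : EuclideanSpace ℝ (Fin q)) :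
    GD G (fun x => ρ x * tw e K τ x) where
  nonneg x := mul_nonneg (hρ.nonneg x) (Real.exp_pos _).le
  meas := hρ.meas.mul (tw_cont _ K τ).measurable
  logc x y t ht0 ht1 := by
    have h1 := hρ.logc x y t ht0 ht1
    unfold tw
    rw [Real.mul_rpow (hρ.nonneg x) (Real.exp_pos _).le,
      Real.mul_rpow (hρ.nonneg y) (Real.exp_pos _).le, ← Real.exp_mul, ← Real.exp_mul]
    have e1 : ∀ j : Fin q, ⟪e j, (1 - t) • x + t • y⟫_ℝ =
        (1 - t) * ⟪e j, x⟫_ℝ + t * ⟪e j, y⟫_ℝ := by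
      intro j
      rw [inner_add_right, inner_smul_right, inner_smul_right]
    simp only [e1]
    obtain ⟨a, ha⟩ : ∃ a : Fin q → ℝ, a = fun j => ⟪e j, x⟫_ℝ := ⟨_, rfl⟩
    obtain ⟨b, hb⟩ : ∃ b : Fin q → ℝ, b = fun j => ⟪e j, y⟫_ℝ := ⟨_, rfl⟩
    have ha' : ∀ j, ⟪e j, x⟫_ℝ = a j := fun j => by rw [ha]
    have hb' : ∀ j, ⟪e j, y⟫_ℝ = b j := fun j => by rw [hb]
    simp only [ha', hb']
    have h3 : ∑ j, ((1 - t) * a j + t * b j - τ j) ^ 2 ≤
        (1 - t) * ∑ j, (a j - τ j) ^ 2 + t * ∑ j, (b j - τ j) ^ 2 := by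
      rw [Finset.mul_sum, Finset.mul_sum, ← Finset.sum_add_distrib]
      refine Finset.sum_le_sum fun j _ => ?_
      have h4 : (1 - t) * (a j - τ j) ^ 2 + t * (b j - τ j) ^ 2 -
          ((1 - t) * a j + t * b j - τ j) ^ 2 = t * (1 - t) * (a j - b j) ^ 2 := by ring
      have h5 : 0 ≤ t * (1 - t) * (a j - b j) ^ 2 :=
        mul_nonneg (mul_nonneg ht0.le (by linarith)) (sq_nonneg _)
      linarith
    have h2 : -((∑ j, (a j - τ j) ^ 2) / (2 * K)) * (1 - t) +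
        -((∑ j, (b j - τ j) ^ 2) / (2 * K)) * t ≤
        -((∑ j, ((1 - t) * a j + t * b j - τ j) ^ 2) / (2 * K)) := by
      have h4 := div_le_div_of_nonneg_right h3 (by positivity : (0 : ℝ) ≤ 2 * K)
      have h5 : ((1 - t) * ∑ j, (a j - τ j) ^ 2 + t * ∑ j, (b j - τ j) ^ 2) / (2 * K) =
          (∑ j, (a j - τ j) ^ 2) / (2 * K) * (1 - t) + (∑ j, (b j - τ j) ^ 2) / (2 * K) * t := by
        ring
      linarith
    calc ρ x ^ (1 - t) * Real.exp (-((∑ j, (a j - τ j) ^ 2) / (2 * K)) * (1 - t)) *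
          (ρ y ^ t * Real.exp (-((∑ j, (b j - τ j) ^ 2) / (2 * K)) * t))
        = (ρ x ^ (1 - t) * ρ y ^ t) *
          Real.exp (-((∑ j, (a j - τ j) ^ 2) / (2 * K)) * (1 - t) +
            -((∑ j, (b j - τ j) ^ 2) / (2 * K)) * t) := by
          rw [Real.exp_add]
          ring
      _ ≤ ρ ((1 - t) • x + t • y) *
          Real.exp (-((∑ j, ((1 - t) * a j + t * b j - τ j) ^ 2) / (2 * K))) :=
        mul_le_mul h1 (Real.exp_le_exp.2 h2) (Real.exp_pos _).le (hρ.nonneg _)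
  inv g hg x := by
    rw [hρ.inv g hg]
    unfold tw
    simp only [he g hg]

theorem GD.mid (hρ : GD G ρ) (x y : V κ) : ρ x * ρ y ≤ (ρ ((1 / 2 : ℝ) • (x + y))) ^ 2 := by
  have h1 := hρ.logc x y (1 / 2) (by norm_num) (by norm_num)
  have e1 : (1 - (1 / 2 : ℝ)) = 1 / 2 := by norm_num
  rw [e1, ← smul_add, ← Real.sqrt_eq_rpow, ← Real.sqrt_eq_rpow,
    ← Real.sqrt_mul (hρ.nonneg x)] at h1
  have h2 := pow_le_pow_left₀ (Real.sqrt_nonneg _) h1 2
  rwa [Real.sq_sqrt (mul_nonneg (hρ.nonneg x) (hρ.nonneg y))] at h2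

theorem GD.tilt_st {q : ℕ} {e : Fin q → V κ} (hρ : GD G ρ) (K : ℝ) (hK : 0 < K)
    (τ : EuclideanSpace ℝ (Fin q)) : St e K (fun x => ρ x * tw e K τ x) := by
  intro x y
  have h1 := hρ.mid x y
  unfold tw
  have e1 : ∀ j : Fin q, ⟪e j, (1 / 2 : ℝ) • (x + y)⟫_ℝ =
      (1 / 2) * (⟪e j, x⟫_ℝ + ⟪e j, y⟫_ℝ) := by
    intro j
    rw [inner_smul_right, inner_add_right]
  have e2 : ∀ j : Fin q, ⟪e j, x - y⟫_ℝ = ⟪e j, x⟫_ℝ - ⟪e j, y⟫_ℝ := fun j => inner_sub_right _ _ _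
  simp only [e1, e2]
  obtain ⟨a, ha⟩ : ∃ a : Fin q → ℝ, a = fun j => ⟪e j, x⟫_ℝ := ⟨_, rfl⟩
  obtain ⟨b, hb⟩ : ∃ b : Fin q → ℝ, b = fun j => ⟪e j, y⟫_ℝ := ⟨_, rfl⟩
  have ha' : ∀ j, ⟪e j, x⟫_ℝ = a j := fun j => by rw [ha]
  have hb' : ∀ j, ⟪e j, y⟫_ℝ = b j := fun j => by rw [hb]
  simp only [ha', hb']
  have e0 : ∑ j, (a j - τ j) ^ 2 + ∑ j, (b j - τ j) ^ 2 =
      2 * ∑ j, (1 / 2 * (a j + b j) - τ j) ^ 2 + (1 / 2) * ∑ j, (a j - b j) ^ 2 := by
    rw [Finset.mul_sum, Finset.mul_sum, ← Finset.sum_add_distrib, ← Finset.sum_add_distrib]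
    refine Finset.sum_congr rfl fun j _ => ?_
    ring
  obtain ⟨A, hA⟩ : ∃ A : ℝ, A = ∑ j, (a j - τ j) ^ 2 := ⟨_, rfl⟩
  obtain ⟨B, hB⟩ : ∃ B : ℝ, B = ∑ j, (b j - τ j) ^ 2 := ⟨_, rfl⟩
  obtain ⟨M, hM⟩ : ∃ M : ℝ, M = ∑ j, (1 / 2 * (a j + b j) - τ j) ^ 2 := ⟨_, rfl⟩
  obtain ⟨D, hD⟩ : ∃ D : ℝ, D = ∑ j, (a j - b j) ^ 2 := ⟨_, rfl⟩
  rw [← hA, ← hB, ← hM, ← hD] at e0
  rw [← hA, ← hB, ← hM, ← hD]
  have e3 : Real.exp (-(A / (2 * K))) * Real.exp (-(B / (2 * K))) =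
      Real.exp (-(M / (2 * K))) ^ 2 * Real.exp (-(D / (4 * K))) := by
    rw [← Real.exp_add, ← Real.exp_nat_mul, ← Real.exp_add]
    congr 1
    have e4 : A = 2 * M + 1 / 2 * D - B := by linarith
    rw [e4]
    push_cast
    field_simp
    ring
  calc ρ x * Real.exp (-(A / (2 * K))) * (ρ y * Real.exp (-(B / (2 * K))))
      = (ρ x * ρ y) * (Real.exp (-(A / (2 * K))) * Real.exp (-(B / (2 * K)))) := by ring
    _ = (ρ x * ρ y) * (Real.exp (-(M / (2 * K))) ^ 2 * Real.exp (-(D / (4 * K)))) := by rw [e3]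
    _ ≤ (ρ ((1 / 2 : ℝ) • (x + y))) ^ 2 * (Real.exp (-(M / (2 * K))) ^ 2 *
        Real.exp (-(D / (4 * K)))) := mul_le_mul_of_nonneg_right h1 (by positivity)
    _ = _ := by ring

end basic

/-! ### one parameter groups -/

section path

variable {κ : Type} [Fintype κ]

/-- `U` is a one parameter group of isometries with generator `A` -/
structure Path (U : ℝ → (V κ ≃ₗᵢ[ℝ] V κ)) (A : V κ →ₗ[ℝ] V κ) : Prop where
  zero : ∀ x, U 0 x = x
  add : ∀ s t x, U (s + t) x = U s (U t x)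
  der : ∀ x, HasDerivAt (fun t => U t x) (A x) 0

variable {U : ℝ → (V κ ≃ₗᵢ[ℝ] V κ)} {A : V κ →ₗ[ℝ] V κ}

theorem Path.der' (h : Path U A) (x : V κ) (t : ℝ) :
    HasDerivAt (fun τ => U τ x) (A (U t x)) t := by
  have h1 : HasDerivAt (fun s => U s (U t x)) (A (U t x)) (t - t) := by
    rw [sub_self]
    exact h.der _
  have h2 := h1.comp_sub_const t t
  have h3 : (fun τ => U τ x) = fun τ => U (τ - t) (U t x) := by
    funext τ
    rw [← h.add, sub_add_cancel]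
  rw [h3]
  exact h2

theorem Path.fderiv_zero (h : Path U A) (v : V κ → ℝ) (hv : ContDiff ℝ 1 v)
    (hi : ∀ t x, v (U t x) = v x) (x : V κ) : fderiv ℝ v x (A x) = 0 := by
  have h0 : U 0 x = x := h.zero x
  have h1 : HasFDerivAt v (fderiv ℝ v (U 0 x)) (U 0 x) :=
    (hv.differentiable (by norm_num) _).hasFDerivAt
  have h2 := h1.comp_hasDerivAt (0 : ℝ) (h.der x)
  have h3 : (v ∘ fun t : ℝ => U t x) = fun _ => v x := by
    funext t
    exact hi t x
  rw [h3, h0] at h2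
  exact h2.unique (hasDerivAt_const (0 : ℝ) (v x))

theorem Path.ev_der (h : Path U A) (p : MvPolynomial κ ℝ) (x : V κ) (t : ℝ) :
    HasDerivAt (fun τ => ev p (U τ x)) (ev (dl A p) (U t x)) t := by
  have h2 : HasFDerivAt (ev p) (fderiv ℝ (ev p) (U t x)) (U t x) :=
    (differentiable_ev p _).hasFDerivAt
  have h3 := h2.comp_hasDerivAt t (h.der' x t)
  rw [← ev_dl] at h3
  exact h3

theorem Path.ev_const (h : Path U A) (p : MvPolynomial κ ℝ) (hp : dl A p = 0) (t : ℝ) (x : V κ) :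
    ev p (U t x) = ev p x := by
  have hd : ∀ s : ℝ, HasDerivAt (fun τ : ℝ => ev p (U τ x)) 0 s := by
    intro s
    have h1 := h.ev_der p x s
    rw [hp] at h1
    have h3 : ev (0 : MvPolynomial κ ℝ) (U s x) = 0 := by
      unfold ev
      rw [map_zero]
    rw [h3] at h1
    exact h1
  have hconst := is_const_of_deriv_eq_zero (fun s => (hd s).differentiableAt)
    (fun s => (hd s).deriv) t 0
  rw [h.zero] at hconst
  exact hconst

theorem Path.int_zero (h : Path U A) (μ : Measure (V κ)) [IsFiniteMeasure μ]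
    (hinv : ∀ t, μ.map (U t) = μ) (hb : ∃ R, μ (Metric.closedBall 0 R)ᶜ = 0)
    (p : MvPolynomial κ ℝ) : ∫ x, ev (dl A p) x ∂μ = 0 := by
  obtain ⟨R, hR⟩ := hb
  have hball : ∀ᵐ x ∂μ, x ∈ Metric.closedBall (0 : V κ) R := by
    rw [ae_iff]
    exact hR
  have hcont : ∀ r : MvPolynomial κ ℝ, Continuous (ev r) := fun r =>
    (differentiable_ev r).continuous
  obtain ⟨C, hC⟩ :=
    (isCompact_closedBall (0 : V κ) R).exists_bound_of_continuousOn
      (hcont (dl A p)).continuousOn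
  obtain ⟨C', hC'⟩ :=
    (isCompact_closedBall (0 : V κ) R).exists_bound_of_continuousOn
      (hcont p).continuousOn
  have hmem : ∀ x ∈ Metric.closedBall (0 : V κ) R, ∀ t, U t x ∈ Metric.closedBall (0 : V κ) R := by
    intro x hx t
    rw [mem_closedBall_zero_iff] at hx ⊢
    rw [LinearIsometryEquiv.norm_map]
    exact hx
  have hmain := hasDerivAt_integral_of_dominated_loc_of_deriv_le (μ := μ)
    (F := fun t x => ev p (U t x))
    (F' := fun t x => ev (dl A p) (U t x))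
    (x₀ := (0 : ℝ)) (s := Set.univ) (bound := fun _ => C) Filter.univ_mem
    (Filter.Eventually.of_forall fun t =>
      ((hcont p).comp (U t).continuous).aestronglyMeasurable)
    (Integrable.of_bound ((hcont p).comp (U 0).continuous).aestronglyMeasurable C'
      (hball.mono fun x hx => hC' _ (hmem x hx 0)))
    ((hcont _).comp (U 0).continuous).aestronglyMeasurable
    (hball.mono fun x hx t _ => hC _ (hmem x hx t))
    (integrable_const C)
    (Filter.Eventually.of_forall fun x t _ => h.ev_der p x t)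
  have h2 := hmain.2
  have h3 : (fun t : ℝ => ∫ x, ev p (U t x) ∂μ) = fun _ => ∫ x, ev p x ∂μ := by
    funext t
    have h4 := integral_map (μ := μ) (φ := U t) (U t).continuous.aemeasurable
      (f := ev p) (hcont p).aestronglyMeasurable
    rw [hinv t] at h4
    exact h4.symm
  rw [h3] at h2
  have h5 := h2.unique (hasDerivAt_const (0 : ℝ) (∫ x, ev p x ∂μ))
  simp only [h.zero] at h5
  exact h5

end path

end Pool.Agent.TH591.TT
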