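import Pool.Agent.TH591.TT.Abs
import Pool.Agent.H212R2.KLS.G2
import Pool.Agent.H888R2.KC.G4

/-!
# From bounded support and second moments to all densities and the covariance
-/

set_option autoImplicit false

namespace Pool.Agent.TH591.TT

open MeasureTheory Set Filter
open scoped ENNReal InnerProductSpace Topology
open Pool.Agent.H212R2.KLS (mu Bdd)

variable {κ : Type} [Fintype κ] {G : Set (V κ ≃ₗᵢ[ℝ] V κ)}

/-- Poincare inequality for densities of bounded support with bounded second moments -/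
def SP (G : Set (V κ ≃ₗᵢ[ℝ] V κ)) (C : ℝ) : Prop :=
  ∀ ρ : V κ → ℝ, GD G ρ → Bdd ρ → mu ρ univ = 1 → ∀ s : ℝ, 0 < s →
    (∀ θ : V κ, ∫ x, ⟪θ, x⟫_ℝ ^ 2 ∂(mu ρ) ≤ s * ‖θ‖ ^ 2) →
    ∀ f : V κ → ℝ, ContDiff ℝ 1 f →
    ∫ x, f x ^ 2 ∂(mu ρ) - (∫ x, f x ∂(mu ρ)) ^ 2 ≤ C * s * ∫ x, ‖fderiv ℝ f x‖ ^ 2 ∂(mu ρ)

theorem mainG {C : ℝ} (hC : 0 < C) (hcore : SP G C) (ρ : V κ → ℝ) (hρ : GD G ρ)
    (h1 : mu ρ univ = 1) (s : ℝ) (hs : 0 < s)
    (hmom : ∀ θ : V κ, ∫⁻ x, ENNReal.ofReal (⟪θ, x⟫_ℝ ^ 2) ∂(mu ρ) ≤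
      ENNReal.ofReal (s * ‖θ‖ ^ 2)) (f : V κ → ℝ) (hf : ContDiff ℝ 1 f)
    (hfL : MemLp f 2 (mu ρ)) :
    ENNReal.ofReal (∫ x, (f x - ∫ y, f y ∂(mu ρ)) ^ 2 ∂(mu ρ)) ≤
      ENNReal.ofReal (C * s) * ∫⁻ x, ENNReal.ofReal (‖fderiv ℝ f x‖ ^ 2) ∂(mu ρ) := by
  have hprob : IsProbabilityMeasure (mu ρ) := ⟨h1⟩
  by_cases hI : ∫⁻ x, ENNReal.ofReal (‖fderiv ℝ f x‖ ^ 2) ∂(mu ρ) = ⊤
  · rw [hI, ENNReal.mul_top (by
      rw [Ne, ENNReal.ofReal_eq_zero, not_le]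
      positivity)]
    exact le_top
  obtain ⟨I, hIdef⟩ : ∃ I : ℝ, I = (∫⁻ x, ENNReal.ofReal (‖fderiv ℝ f x‖ ^ 2) ∂(mu ρ)).toReal :=
    ⟨_, rfl⟩
  have hI0 : 0 ≤ I := by rw [hIdef]; exact ENNReal.toReal_nonneg
  have hgrad_meas : Continuous fun x => ‖fderiv ℝ f x‖ ^ 2 :=
    ((hf.continuous_fderiv (by norm_num)).norm).pow 2
  have hf2 : Integrable (fun x => f x ^ 2) (mu ρ) := hfL.integrable_sq
  have hf1 : Integrable f (mu ρ) := hfL.integrable (by norm_num)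
  have key : ∀ᶠ k : ℕ in atTop,
      ((mu ρ).real {x : V κ | ‖x‖ ≤ k})⁻¹ *
        (∫ x in {x : V κ | ‖x‖ ≤ k}, f x ^ 2 ∂(mu ρ)) -
        (((mu ρ).real {x : V κ | ‖x‖ ≤ k})⁻¹ *
          ∫ x in {x : V κ | ‖x‖ ≤ k}, f x ∂(mu ρ)) ^ 2 ≤
      C * (s * ((mu ρ).real {x : V κ | ‖x‖ ≤ k})⁻¹) *
        (((mu ρ).real {x : V κ | ‖x‖ ≤ k})⁻¹ * I) := by
    have hev : ∀ᶠ k : ℕ in atTop, 0 < (mu ρ).real {x : V κ | ‖x‖ ≤ k} :=
      (H212R2.KLS.g2_mass (mu ρ)).eventually (lt_mem_nhds one_pos)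
    filter_upwards [hev] with k hk
    obtain ⟨B, hBdef⟩ : ∃ B : Set (V κ), B = {x | ‖x‖ ≤ k} := ⟨_, rfl⟩
    have hBm : MeasurableSet B := by
      rw [hBdef]
      exact measurableSet_le measurable_norm measurable_const
    have hBc : Convex ℝ B := by
      have : B = Metric.closedBall 0 k := by
        rw [hBdef]
        ext x
        simp
      rw [this]
      exact convex_closedBall 0 _
    have hBi : ∀ g ∈ G, ∀ x, g x ∈ B ↔ x ∈ B := by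
      intro g _ x
      rw [hBdef]
      show ‖g x‖ ≤ k ↔ ‖x‖ ≤ k
      rw [LinearIsometryEquiv.norm_map]
    rw [← hBdef] at hk ⊢
    obtain ⟨M, hM⟩ : ∃ M : ℝ, M = (mu ρ).real B := ⟨_, rfl⟩
    rw [← hM] at hk ⊢
    have hMi : 0 ≤ M⁻¹ := (inv_pos.2 hk).le
    have hd : GD G (fun x => M⁻¹ * B.indicator ρ x) :=
      (hρ.indicator B hBc hBm hBi).smul _ hMi
    have hb : Bdd (fun x => M⁻¹ * B.indicator ρ x) := by
      refine ⟨k, fun x hx => ?_⟩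
      show M⁻¹ * B.indicator ρ x = 0
      rw [indicator_of_notMem, mul_zero]
      rw [hBdef]
      exact not_le.2 hx
    have hmu := H212R2.KLS.g2_mu ρ hρ.nonneg hρ.meas B hBm M⁻¹ hMi
    have hmass : mu (fun x => M⁻¹ * B.indicator ρ x) univ = 1 := by
      rw [hmu, Measure.smul_apply, Measure.restrict_apply_univ, smul_eq_mul]
      have h2 : mu ρ B = ENNReal.ofReal M := by
        rw [hM, Measure.real, ENNReal.ofReal_toReal (measure_ne_top _ _)]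
      rw [h2, ← ENNReal.ofReal_mul hMi, inv_mul_cancel₀ hk.ne', ENNReal.ofReal_one]
    have hint : ∀ g : V κ → ℝ, ∫ x, g x ∂(mu (fun x => M⁻¹ * B.indicator ρ x)) =
        M⁻¹ * ∫ x in B, g x ∂(mu ρ) := by
      intro g
      rw [hmu, integral_smul_measure, ENNReal.toReal_ofReal hMi, smul_eq_mul]
    -- a nonnegative function has a smaller integral over `B`
    have hle : ∀ g : V κ → ℝ, Continuous g → (∀ x, 0 ≤ g x) → ∀ a : ℝ, 0 ≤ a →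
        ∫⁻ x, ENNReal.ofReal (g x) ∂(mu ρ) ≤ ENNReal.ofReal a → ∫ x in B, g x ∂(mu ρ) ≤ a := by
      intro g hg hg0 a ha hga
      rw [integral_eq_lintegral_of_nonneg_ae (Eventually.of_forall hg0)
        hg.aestronglyMeasurable]
      apply ENNReal.toReal_le_of_le_ofReal ha
      exact le_trans (setLIntegral_le_lintegral _ _) hga
    have hmom' : ∀ θ : V κ,
        ∫ x, ⟪θ, x⟫_ℝ ^ 2 ∂(mu (fun x => M⁻¹ * B.indicator ρ x)) ≤ (s * M⁻¹) * ‖θ‖ ^ 2 := by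
      intro θ
      rw [hint]
      have h2 := hle (fun x => ⟪θ, x⟫_ℝ ^ 2) (by fun_prop) (fun x => sq_nonneg _) (s * ‖θ‖ ^ 2)
        (by positivity) (hmom θ)
      calc M⁻¹ * ∫ x in B, ⟪θ, x⟫_ℝ ^ 2 ∂(mu ρ) ≤ M⁻¹ * (s * ‖θ‖ ^ 2) :=
            mul_le_mul_of_nonneg_left h2 hMi
        _ = (s * M⁻¹) * ‖θ‖ ^ 2 := by ring
    have h3 := hcore _ hd hb hmass (s * M⁻¹) (mul_pos hs (inv_pos.2 hk)) hmom' f hf
    rw [hint, hint, hint] at h3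
    refine h3.trans ?_
    have h4 : ∫ x in B, ‖fderiv ℝ f x‖ ^ 2 ∂(mu ρ) ≤ I := by
      apply hle _ hgrad_meas (fun x => sq_nonneg _) I hI0
      rw [hIdef, ENNReal.ofReal_toReal hI]
    have h5 : 0 ≤ C * (s * M⁻¹) := by positivity
    exact mul_le_mul_of_nonneg_left (mul_le_mul_of_nonneg_left h4 hMi) h5
  have hM1 : Tendsto (fun k : ℕ => ((mu ρ).real {x : V κ | ‖x‖ ≤ k})⁻¹)
      atTop (𝓝 1) := by
    have := (H212R2.KLS.g2_mass (mu ρ)).inv₀ one_ne_zero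
    rwa [inv_one] at this
  have hL : Tendsto (fun k : ℕ =>
      ((mu ρ).real {x : V κ | ‖x‖ ≤ k})⁻¹ *
        (∫ x in {x : V κ | ‖x‖ ≤ k}, f x ^ 2 ∂(mu ρ)) -
        (((mu ρ).real {x : V κ | ‖x‖ ≤ k})⁻¹ *
          ∫ x in {x : V κ | ‖x‖ ≤ k}, f x ∂(mu ρ)) ^ 2)
      atTop (𝓝 (1 * (∫ x, f x ^ 2 ∂(mu ρ)) - (1 * ∫ x, f x ∂(mu ρ)) ^ 2)) :=
    (hM1.mul (H212R2.KLS.g2_lim (mu ρ) _ hf2)).sub
      ((hM1.mul (H212R2.KLS.g2_lim (mu ρ) _ hf1)).pow 2)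
  have hR : Tendsto (fun k : ℕ =>
        C * (s * ((mu ρ).real {x : V κ | ‖x‖ ≤ k})⁻¹) *
        (((mu ρ).real {x : V κ | ‖x‖ ≤ k})⁻¹ * I))
      atTop (𝓝 (C * (s * 1) * (1 * I))) :=
    ((hM1.const_mul s).const_mul C).mul (hM1.mul_const I)
  have hfin := le_of_tendsto_of_tendsto hL hR key
  have hvar : ∫ x, (f x - ∫ y, f y ∂(mu ρ)) ^ 2 ∂(mu ρ) =
      ∫ x, f x ^ 2 ∂(mu ρ) - (∫ x, f x ∂(mu ρ)) ^ 2 := by
    obtain ⟨a, ha⟩ : ∃ a : ℝ, a = ∫ y, f y ∂(mu ρ) := ⟨_, rfl⟩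
    rw [← ha]
    have h2 : ∀ x, (f x - a) ^ 2 = (f x ^ 2 - 2 * a * f x) + a ^ 2 := fun x => by ring
    simp_rw [h2]
    have h3 : Integrable (fun x => 2 * a * f x) (mu ρ) := hf1.const_mul _
    have h4 : Integrable (fun x => f x ^ 2 - 2 * a * f x) (mu ρ) := hf2.sub h3
    rw [integral_add h4 (integrable_const _), integral_sub hf2 h3, integral_const_mul, ← ha]
    simp
    ring
  rw [hvar]
  have h6 : ∫ x, f x ^ 2 ∂(mu ρ) - (∫ x, f x ∂(mu ρ)) ^ 2 ≤ C * s * I := by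
    have : C * (s * 1) * (1 * I) = C * s * I := by ring
    rw [this] at hfin
    simpa using hfin
  calc ENNReal.ofReal (∫ x, f x ^ 2 ∂(mu ρ) - (∫ x, f x ∂(mu ρ)) ^ 2)
      ≤ ENNReal.ofReal (C * s * I) := ENNReal.ofReal_le_ofReal h6
    _ = ENNReal.ofReal (C * s) * ∫⁻ x, ENNReal.ofReal (‖fderiv ℝ f x‖ ^ 2) ∂(mu ρ) := by
      rw [ENNReal.ofReal_mul (by positivity), hIdef, ENNReal.ofReal_toReal hI]

open Pool.Agent.H888R2.KC.G4x in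
theorem centG {C : ℝ} (hC : 0 < C) (hcore : SP G C) (ρ : V κ → ℝ) (hρ : GD G ρ)
    (h1 : mu ρ univ = 1) (s : ℝ) (hs : 0 < s)
    (hvar : ∀ θ : V κ, ProbabilityTheory.evariance (fun x => ⟪θ, x⟫_ℝ) (mu ρ) ≤
      ENNReal.ofReal (s * ‖θ‖ ^ 2)) (f : V κ → ℝ) (hf : ContDiff ℝ 1 f)
    (hf2 : MemLp f 2 (mu ρ)) :
    ENNReal.ofReal (∫ x, (f x - ∫ y, f y ∂(mu ρ)) ^ 2 ∂(mu ρ)) ≤
      ENNReal.ofReal (C * s) * ∫⁻ x, ENNReal.ofReal (‖fderiv ℝ f x‖ ^ 2) ∂(mu ρ) := by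
  classical
  have : IsProbabilityMeasure (mu ρ) := ⟨h1⟩
  have hL2 : ∀ θ : V κ, MemLp (fun x : V κ => ⟪θ, x⟫_ℝ) 2 (mu ρ) := by
    intro θ
    have hmeas : AEStronglyMeasurable (fun x : V κ => ⟪θ, x⟫_ℝ) (mu ρ) := by
      have : Continuous (fun x : V κ => ⟪θ, x⟫_ℝ) := by fun_prop
      exact this.aestronglyMeasurable
    rw [← ProbabilityTheory.evariance_lt_top_iff_memLp hmeas]
    exact lt_of_le_of_lt (hvar θ) ENNReal.ofReal_lt_top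
  have hint : ∀ k, Integrable (fun x : V κ => x k) (mu ρ) := by
    intro k
    have h2 := (hL2 (EuclideanSpace.single k 1)).integrable (by norm_num)
    refine h2.congr ?_
    filter_upwards with x
    rw [EuclideanSpace.inner_single_left]
    simp
  set a := mean (mu ρ) with ha
  have hcj : ∀ g ∈ G, g a = a := by
    intro g hg
    have hmap := hρ.map_mu g hg
    have hc : Continuous g := g.continuous
    ext j
    let L : V κ →ₗ[ℝ] ℝ := (EuclideanSpace.proj j : V κ →L[ℝ] ℝ)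
    have h2 := lin_mean (mu ρ) hint (L ∘ₗ (g.toLinearEquiv : V κ →ₗ[ℝ] V κ))
    have h3 : ∫ y : V κ, y j ∂((mu ρ).map g) = ∫ x, (g x) j ∂(mu ρ) := by
      refine integral_map hc.measurable.aemeasurable ?_
      have : Continuous (fun y : V κ => y j) := by fun_prop
      exact this.aestronglyMeasurable
    rw [hmap] at h3
    have h4 : (L ∘ₗ (g.toLinearEquiv : V κ →ₗ[ℝ] V κ)) (mean (mu ρ)) = (g a) j := rfl
    rw [← h4, h2]
    exact h3.symm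
  have hρ' : GD G (fun x => ρ (x + a)) := hρ.shift a hcj
  have hmap := map_shift ρ hρ.meas a
  have hemb : MeasurableEmbedding (fun x : V κ => x + a) :=
    measurableEmbedding_addRight a
  have h1' : mu (fun x => ρ (x + a)) univ = 1 := by
    have h2 := congrArg (fun m : Measure (V κ) => m univ) hmap
    rw [Measure.map_apply (measurable_add_const a) MeasurableSet.univ, preimage_univ, h1] at h2
    exact h2
  have hI : ∀ g : V κ → ℝ,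
      ∫ x, g x ∂(mu ρ) = ∫ x, g (x + a) ∂(mu fun x => ρ (x + a)) := by
    intro g
    conv_lhs => rw [← hmap]
    exact hemb.integral_map g
  have hLI : ∀ g : V κ → ℝ≥0∞,
      ∫⁻ x, g x ∂(mu ρ) = ∫⁻ x, g (x + a) ∂(mu fun x => ρ (x + a)) := by
    intro g
    conv_lhs => rw [← hmap]
    exact hemb.lintegral_map g
  have hvar' : ∀ θ : V κ,
      ∫⁻ x, ENNReal.ofReal (⟪θ, x⟫_ℝ ^ 2) ∂(mu fun x => ρ (x + a)) ≤
        ENNReal.ofReal (s * ‖θ‖ ^ 2) := by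
    intro θ
    have h2 := hvar θ
    unfold ProbabilityTheory.evariance at h2
    rw [hLI] at h2
    refine le_trans (le_of_eq ?_) h2
    refine lintegral_congr fun x => ?_
    have h3 : ∫ x, ⟪θ, x⟫_ℝ ∂(mu ρ) = ⟪θ, a⟫_ℝ := by
      have h4 := lin_mean (mu ρ) hint (innerₛₗ ℝ θ)
      simp only [innerₛₗ_apply_apply] at h4
      exact h4.symm
    rw [h3]
    show ENNReal.ofReal (⟪θ, x⟫_ℝ ^ 2) = ‖⟪θ, x + a⟫_ℝ - ⟪θ, a⟫_ℝ‖ₑ ^ 2
    rw [inner_add_right, add_sub_cancel_right, ← ofReal_norm,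
      ← ENNReal.ofReal_pow (norm_nonneg _), Real.norm_eq_abs, sq_abs]
  have hg : ContDiff ℝ 1 (fun x => f (x + a)) := hf.comp (contDiff_id.add contDiff_const)
  have hg2 : MemLp (fun x => f (x + a)) 2 (mu fun x => ρ (x + a)) := by
    rw [← hmap] at hf2
    exact (hemb.memLp_map_measure_iff).mp hf2
  have key := mainG hC hcore (fun x => ρ (x + a)) hρ' h1' s hs hvar' (fun x => f (x + a)) hg hg2
  have e1 : ∫ x, (f x - ∫ y, f y ∂(mu ρ)) ^ 2 ∂(mu ρ) =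
      ∫ x, (f (x + a) - ∫ y, f (y + a) ∂(mu fun x => ρ (x + a))) ^ 2
        ∂(mu fun x => ρ (x + a)) := by
    rw [hI (fun x => (f x - ∫ y, f y ∂(mu ρ)) ^ 2), hI f]
  have e2 : ∫⁻ x, ENNReal.ofReal (‖fderiv ℝ f x‖ ^ 2) ∂(mu ρ) =
      ∫⁻ x, ENNReal.ofReal (‖fderiv ℝ (fun x => f (x + a)) x‖ ^ 2)
        ∂(mu fun x => ρ (x + a)) := by
    rw [hLI (fun x => ENNReal.ofReal (‖fderiv ℝ f x‖ ^ 2))]
    refine lintegral_congr fun x => ?_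
    rw [fderiv_comp_add_right]
  rw [e1, e2]
  exact key

end Pool.Agent.TH591.TT
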