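import Pool.Agent.TH591.TT.TailS
import Pool.Agent.TH591.TT.Main

/-!
# The Poincare inequality for tuples of matrices and vectors
-/

set_option autoImplicit false

namespace Pool.Agent.TH591.TT

open MeasureTheory Set Matrix
open scoped ENNReal InnerProductSpace
open Pool.Agent.H212R2.KLS (mu Bdd)

/-- the factor `(q + 1)² (1 + (q + m) / N)²` -/
noncomputable def fac (q m N : ℕ) : ℝ := ((q : ℝ) + 1) ^ 2 * (1 + (q + m) / N) ^ 2

theorem fac_pos (q m N : ℕ) : 0 < fac q m N := by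
  unfold fac
  positivity

theorem BB_invS {κ : Type} [Fintype κ] {q m N : ℕ} {ι : V κ →ₗᵢ[ℝ] V (Ix q m N)} (r : ℝ) :
    ∀ e ∈ GS ι, ∀ x, e x ∈ ι ⁻¹' (BB q m N r) ↔ x ∈ ι ⁻¹' (BB q m N r) := by
  rintro e ⟨g, hg, he⟩ x
  show ι (e x) ∈ BB q m N r ↔ ι x ∈ BB q m N r
  rw [he]
  exact BB_inv r (iso g hg.1) (iso_mem g hg.1) (ι x)

theorem spS : ∃ C : ℝ, 0 < C ∧ ∀ {κ : Type} [Fintype κ] {q m N : ℕ}, 3 ≤ N →
    ∀ ι : V κ →ₗᵢ[ℝ] V (Ix q m N), InvR ι → SP (GS ι) (C * fac q m N) := by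
  obtain ⟨C₀, hC₀, hcore⟩ := core
  refine ⟨C₀ * (36 * 4 * 36 * 1500 ^ 2 + 2 + 129600), by positivity, ?_⟩
  intro κ _ q m N hN ι hι ρ hρ hb h1 s hs hmom f hf
  obtain ⟨κ0, hκ, hLD⟩ := dataS hN hι
  have hN3 : (3 : ℝ) ≤ N := by exact_mod_cast hN
  have hN0 : (0 : ℝ) < N := by linarith
  have hq0 : (0 : ℝ) ≤ q := Nat.cast_nonneg q
  have hm0 : (0 : ℝ) ≤ m := Nat.cast_nonneg m
  obtain ⟨D, hD⟩ : ∃ D : ℝ, D = q + 3 * m + 10 * N := ⟨_, rfl⟩
  have hD30 : 30 ≤ D := by rw [hD]; linarith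
  obtain ⟨u, hu⟩ : ∃ u : ℝ, u = 150 * D / N := ⟨_, rfl⟩
  have hu0 : 0 < u := by rw [hu]; positivity
  have hNu : N * (u / 30) = 5 * D := by
    rw [hu]
    field_simp
    ring
  obtain ⟨r, hr⟩ : ∃ r : ℝ, r = 6 * u * Real.sqrt (N * s) := ⟨_, rfl⟩
  have hr2 : r ^ 2 = 36 * u ^ 2 * (N * s) := by
    rw [hr, mul_pow, mul_pow, Real.sq_sqrt (by positivity)]
    ring
  obtain ⟨Q, hQ⟩ : ∃ Q : ℝ, Q = Real.sqrt ((q + 1) * s) := ⟨_, rfl⟩
  have hQ0 : 0 < Q := by rw [hQ]; exact Real.sqrt_pos.2 (by positivity)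
  have hQ2 : Q ^ 2 = (q + 1) * s := by rw [hQ]; exact Real.sq_sqrt (by positivity)
  have hUc : mu ρ (ι ⁻¹' (BB q m N r))ᶜ ≤ ENNReal.ofReal (Real.exp (-(4 * D))) := by
    have h2 := BB_tailS hN hι hρ hb h1 s hs hmom u
    rw [← hr] at h2
    refine h2.trans (le_of_eq ?_)
    congr 2
    have : (N : ℝ) * (10 - u / 30) = 10 * N - N * (u / 30) := by ring
    rw [this, hNu, hD]
    ring
  have htail : ∀ t : ℝ, 2 * (360 * Q) * D ≤ t → mu ρ (Metric.closedBall 0 t)ᶜ ≤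
      ENNReal.ofReal (Real.exp (-(t / (360 * Q)))) := by
    intro t ht
    have ht0 : 0 < t := lt_of_lt_of_le (by positivity) ht
    obtain ⟨z, hz⟩ : ∃ z : ℝ, z = t / (360 * Q) := ⟨_, rfl⟩
    have htz : t = z * (360 * Q) := by rw [hz]; field_simp
    have hzD : D ≤ z := by
      rw [hz, le_div_iff₀ (by positivity)]
      have : 0 ≤ 360 * Q * D := by positivity
      linarith
    have hz0 : 0 < z := by linarith
    obtain ⟨w, hw⟩ : ∃ w : ℝ, w = 60 * z / N := ⟨_, rfl⟩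
    have hNw : N * w = 60 * z := by rw [hw]; field_simp
    have hw0 : 0 ≤ w := by rw [hw]; positivity
    have hsub : (Metric.closedBall (0 : V κ) t)ᶜ ⊆
        (ι ⁻¹' (BB q m N (6 * w * Real.sqrt (N * s))))ᶜ := by
      intro x hx hB
      apply hx
      rw [mem_closedBall_zero_iff]
      have h2 := BB_norm _ (ι x) hB
      rw [ι.norm_map] at h2
      have h3 : ((q : ℝ) + 1) * (N * (6 * w * Real.sqrt (N * s)) ^ 2) = t ^ 2 := by
        rw [mul_pow, mul_pow, Real.sq_sqrt (by positivity), htz, mul_pow, mul_pow, hQ2]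
        have : ((q : ℝ) + 1) * (N * (6 ^ 2 * w ^ 2 * (N * s))) =
            36 * (N * w) ^ 2 * ((q + 1) * s) := by ring
        rw [this, hNw]
        ring
      rw [h3] at h2
      exact (abs_le_of_sq_le_sq' h2 ht0.le).2
    refine (measure_mono hsub).trans ((BB_tailS hN hι hρ hb h1 s hs hmom w).trans ?_)
    apply ENNReal.ofReal_le_ofReal
    apply Real.exp_le_exp.2
    rw [← hz]
    have : (N : ℝ) * (10 - w / 30) = 10 * N - (N * w) / 30 := by ring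
    rw [this, hNw]
    rw [hD] at hzD
    linarith
  have key := hcore hLD hρ hb h1 s hs hmom (4 * r ^ 2 * (q + 1)) (by positivity)
    (ι ⁻¹' (BB q m N r)) ((BB_convex r).linear_preimage ι.toLinearMap)
    ((BB_closed r).preimage ι.continuous).measurableSet (BB_invS r) (fun x hx w => by
      have h2 := BB_L r (ι x) hx (ι w)
      rw [ι.norm_map] at h2
      refine le_trans (le_of_eq ?_) h2
      refine Finset.sum_congr rfl fun k _ => ?_
      rw [← ι_DS hι _ (Km_tp k), ι.inner_map_map]) (360 * Q) D (by positivity)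
    (by linarith) hUc htail f hf
  refine key.trans (mul_le_mul_of_nonneg_right ?_ (integral_nonneg fun x => by positivity))
  -- the constants
  obtain ⟨b, hb'⟩ : ∃ b : ℝ, b = 1 + (q + m) / N := ⟨_, rfl⟩
  have hb1 : 1 ≤ b := by
    rw [hb']
    have : (0 : ℝ) ≤ (q + m) / N := by positivity
    linarith
  have hfac : fac q m N = (q + 1) ^ 2 * b ^ 2 := by rw [hb']; rfl
  have hub : u ≤ 1500 * b := by
    rw [hu, div_le_iff₀ hN0, hb', hD]
    have : (1 + ((q : ℝ) + m) / N) * N = N + (q + m) := by field_simp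
    nlinarith
  have hu2 : u ^ 2 ≤ 1500 ^ 2 * b ^ 2 := by
    rw [← mul_pow]
    exact pow_le_pow_left₀ hu0.le hub 2
  have hNk : (N : ℝ) / 3 ≤ κ0 := by linarith
  have hNc : (N : ℝ) / 6 ≤ ((N : ℝ) - 2) / 2 := by linarith
  have hL0 : 0 ≤ 4 * (4 * r ^ 2 * ((q : ℝ) + 1)) := by positivity
  have e1 : 4 * (4 * r ^ 2 * ((q : ℝ) + 1)) / κ0 ≤ 4 * (4 * r ^ 2 * (q + 1)) / (N / 3) :=
    div_le_div_of_nonneg_left hL0 (by positivity) hNk
  have e2 : 4 * (4 * r ^ 2 * ((q : ℝ) + 1)) / (((N : ℝ) - 2) / 2) ≤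
      4 * (4 * r ^ 2 * (q + 1)) / (N / 6) :=
    div_le_div_of_nonneg_left hL0 (by positivity) hNc
  have e3 : 4 * (4 * r ^ 2 * ((q : ℝ) + 1)) / (N / 3) + 4 * (4 * r ^ 2 * (q + 1)) / (N / 6) =
      36 * 4 * 36 * u ^ 2 * (q + 1) * s := by
    rw [hr2]
    field_simp
    ring
  have e4 : 36 * 4 * 36 * u ^ 2 * ((q : ℝ) + 1) * s ≤
      36 * 4 * 36 * (1500 ^ 2 * b ^ 2) * (q + 1) * s := by
    have : 0 ≤ ((q : ℝ) + 1) * s := by positivity
    nlinarith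
  have hb2 : 1 ≤ b ^ 2 := one_le_pow₀ hb1
  have hqb : 1 ≤ ((q : ℝ) + 1) * b ^ 2 := by nlinarith
  have e5 : 2 * s ≤ 2 * (((q : ℝ) + 1) * b ^ 2 * s) := by nlinarith
  have e6 : (360 * Q) ^ 2 ≤ 129600 * ((q + 1) ^ 2 * b ^ 2 * s) := by
    rw [mul_pow, hQ2]
    have h7 : ((q : ℝ) + 1) * s ≤ ((q + 1) * b ^ 2) * ((q + 1) * s) :=
      le_mul_of_one_le_left (by positivity) hqb
    nlinarith
  have hF : ((Module.finrank ℝ (FX ι) : ℕ) : ℝ) + 1 ≤ q + 1 := by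
    have : ((Module.finrank ℝ (FX ι) : ℕ) : ℝ) ≤ q := by exact_mod_cast FX_le hN
    linarith
  have e7 : (((Module.finrank ℝ (FX ι) : ℕ) : ℝ) + 1) * (4 * (4 * r ^ 2 * ((q : ℝ) + 1)) / κ0 +
      4 * (4 * r ^ 2 * ((q : ℝ) + 1)) / (((N : ℝ) - 2) / 2) + 2 * s) ≤
      (q + 1) * (36 * 4 * 36 * (1500 ^ 2 * b ^ 2) * (q + 1) * s +
        2 * (((q : ℝ) + 1) * b ^ 2 * s)) := by
    refine mul_le_mul hF (by linarith) ?_ (by positivity)
    have hk := hLD.kpos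
    have hc := hLD.cpos
    positivity
  rw [hfac]
  have e8 : C₀ * (((q : ℝ) + 1) * (36 * 4 * 36 * (1500 ^ 2 * b ^ 2) * (q + 1) * s +
        2 * (((q : ℝ) + 1) * b ^ 2 * s)) + 129600 * ((q + 1) ^ 2 * b ^ 2 * s)) =
      C₀ * (36 * 4 * 36 * 1500 ^ 2 + 2 + 129600) * ((q + 1) ^ 2 * b ^ 2) * s := by ring
  rw [← e8]
  exact mul_le_mul_of_nonneg_left (add_le_add e7 e6) hC₀.le

end Pool.Agent.TH591.TT
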