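import Pool.Agent.TH591.TT.Abs
import Pool.Agent.H888R2.KT.N12
import Pool.Agent.H888R2.KT.V5
import Pool.Agent.H888R2.KC.G1
import Pool.Agent.H212R2.KLS.S1
import Pool.Agent.H212R2.KLS.S2

/-!
# Local Poincare inequality and gluing for densities invariant under a compact group
-/

set_option autoImplicit false

namespace Pool.Agent.TH591.TT

open MeasureTheory Set
open scoped ENNReal InnerProductSpace
open Pool.Agent.H212R2.KLS (mu Bdd ev gr)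
open Pool.Agent.H888R2.KC (dl ev_dl glue)
open Pool.Agent.H888R2.KT (LC St tw gen_local untiltq)

section

variable {κ κ' : Type} [Fintype κ] [Fintype κ']

/-- Lie algebra data: skew operators `A k` with structure constants, the Killing form is a multiple
of the identity, the Casimir operator is at least `cV` on the orthogonal complement of the fixed
vectors `e j`; every `A k` generates a one parameter group contained in `G`. -/
structure LD {q : ℕ} (G : Set (V κ ≃ₗᵢ[ℝ] V κ)) (A : κ' → (V κ →ₗ[ℝ] V κ)) (e : Fin q → V κ)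
    (κ0 cV : ℝ) : Prop where
  skew : ∀ k x y, ⟪A k x, y⟫_ℝ = - ⟪x, A k y⟫_ℝ
  struc : ∃ c : κ' → κ' → κ' → ℝ, (∀ i j k, c j i k = - c i j k) ∧
    (∀ i j k, c i k j = - c i j k) ∧
    (∀ i j x, A i (A j x) - A j (A i x) = ∑ k, c i j k • A k x) ∧
    (∀ k x, ∑ l, (∑ i, ∑ j, c i j k * c i j l) • A l x = κ0 • A k x)
  kpos : 0 < κ0
  cpos : 0 < cV
  orth : Orthonormal ℝ e
  cas : ∀ w, cV * (‖w‖ ^ 2 - ∑ j, ⟪e j, w⟫_ℝ ^ 2) ≤ ∑ k, ‖A k w‖ ^ 2
  path : ∀ k, ∃ U : ℝ → (V κ ≃ₗᵢ[ℝ] V κ), (∀ t, U t ∈ G) ∧ Path U (A k)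
  fix : ∀ g ∈ G, ∀ j, g (e j) = e j

variable {q : ℕ} {G : Set (V κ ≃ₗᵢ[ℝ] V κ)} {A : κ' → (V κ →ₗ[ℝ] V κ)} {e : Fin q → V κ}
  {κ0 cV : ℝ} {ρ : V κ → ℝ}

theorem LD.inner_fix (h : LD G A e κ0 cV) : ∀ g ∈ G, ∀ j x, ⟪e j, g x⟫_ℝ = ⟪e j, x⟫_ℝ := by
  intro g hg j x
  have h1 := g.inner_map_map (e j) x
  rwa [h.fix g hg j] at h1

theorem ball_null (hm : Measurable ρ) (hb : Bdd ρ) : ∃ R, (mu ρ) (Metric.closedBall 0 R)ᶜ = 0 := by
  obtain ⟨R, hR⟩ := hb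
  refine ⟨R, ?_⟩
  rw [mu, withDensity_apply_eq_zero' (hm.ennreal_ofReal.aemeasurable)]
  refine measure_mono_null ?_ (measure_empty (μ := (volume : Measure (V κ))))
  intro x hx
  refine hx.1 ?_
  have h2 : R < ‖x‖ := by
    have := hx.2
    rw [mem_compl_iff, mem_closedBall_zero_iff, not_le] at this
    exact this
  simp [hR x h2]

theorem local_poinc (h : LD G A e κ0 cV) (hρ : GD G ρ) (hb : Bdd ρ) (hfin : mu ρ univ ≠ ⊤)
    (L : ℝ) (hL0 : 0 ≤ L) (hL : ∀ x, ρ x ≠ 0 → ∀ w, ∑ k, ⟪w, A k x⟫_ℝ ^ 2 ≤ L * ‖w‖ ^ 2)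
    (K : ℝ) (hK : 0 < K) (hT : St e K ρ) (f : V κ → ℝ) (hf : ContDiff ℝ 1 f) :
    ∃ c : ℝ, ∫ x, (f x - c) ^ 2 ∂(mu ρ) ≤
      (4 * L / κ0 + 4 * max K (L / cV)) * ∫ x, ‖fderiv ℝ f x‖ ^ 2 ∂(mu ρ) := by
  by_cases hμ : mu ρ = 0
  · exact ⟨0, by simp [hμ]⟩
  have hLC : LC ρ := ⟨hρ.nonneg, hρ.meas, hρ.logc, hb, hfin, hμ⟩
  have hfin' : IsFiniteMeasure (mu ρ) := ⟨lt_top_iff_ne_top.2 hfin⟩
  have hball := ball_null hρ.meas hb
  obtain ⟨c, hc1, hc2, hcomm, hkil⟩ := h.struc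
  choose U hUG hUP using h.path
  exact gen_local A h.skew c hc1 hc2 hcomm κ0 h.kpos hkil e h.orth cV h.cpos h.cas hLC K hK hT
    L hL0 hL {g | ∃ k t, g = U k t}
    (by
      rintro g ⟨k, t, rfl⟩ x
      exact hρ.inv _ (hUG k t) x)
    (by
      intro v hv hvg k x
      exact (hUP k).fderiv_zero v hv (fun t y => hvg _ ⟨k, t, rfl⟩ y) x)
    (by
      rintro p hp g ⟨k, t, rfl⟩ x
      exact (hUP k).ev_const p (hp k) t x)
    (fun k p => (hUP k).int_zero (mu ρ) (fun t => hρ.map_mu _ (hUG k t)) hball p) f hf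

/-- restriction of the density -/
theorem mu_indicator {F : Type*} [MeasureSpace F] (ρ : F → ℝ) (U : Set F)
    (hU : MeasurableSet U) : mu (U.indicator ρ) = (mu ρ).restrict U := by
  rw [mu, mu, restrict_withDensity hU, ← withDensity_indicator hU]
  congr 1
  ext x
  by_cases hx : x ∈ U <;> simp [hx]

/-- integral against a product of densities -/
theorem integral_mu_mul {F : Type*} [MeasureSpace F] (ρ w g : F → ℝ) (h0 : ∀ x, 0 ≤ ρ x)
    (hm : Measurable ρ) (hw0 : ∀ x, 0 ≤ w x) (hwm : Measurable w) :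
    ∫ x, g x ∂(mu (fun x => ρ x * w x)) = ∫ x, g x * w x ∂(mu ρ) := by
  have h : mu (fun x => ρ x * w x) = (mu ρ).withDensity (fun x => ENNReal.ofReal (w x)) := by
    rw [mu, mu, ← withDensity_mul _ hm.ennreal_ofReal hwm.ennreal_ofReal]
    congr 1
    ext x
    simp [ENNReal.ofReal_mul (h0 x)]
  rw [h, integral_withDensity_eq_integral_toReal_smul hwm.ennreal_ofReal
    (ae_of_all _ fun x => ENNReal.ofReal_lt_top)]
  refine integral_congr_ae (ae_of_all _ fun x => ?_)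
  simp only [ENNReal.toReal_ofReal (hw0 x), smul_eq_mul]
  ring

theorem mu_mono {F : Type*} [MeasureSpace F] (ρ w : F → ℝ) (h : ∀ x, w x ≤ ρ x) (U : Set F) :
    mu w U ≤ mu ρ U := by
  have : mu w ≤ mu ρ := withDensity_mono (ae_of_all _ fun x => ENNReal.ofReal_le_ofReal (h x))
  exact this U

theorem intg {F : Type*} [NormedAddCommGroup F] [NormedSpace ℝ F] [FiniteDimensional ℝ F]
    [MeasurableSpace F] [BorelSpace F] (μ : Measure F) [IsFiniteMeasure μ]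
    (hb : ∃ R, μ (Metric.closedBall 0 R)ᶜ = 0) (g : F → ℝ) (hg : Continuous g) :
    Integrable g μ := by
  obtain ⟨R, hR⟩ := hb
  have : ProperSpace F := FiniteDimensional.proper ℝ F
  obtain ⟨C, hC⟩ := (isCompact_closedBall (0 : F) R).exists_bound_of_continuousOn hg.continuousOn
  have h1 : Metric.closedBall (0 : F) R ∈ ae μ := mem_ae_iff.2 hR
  refine Integrable.of_bound hg.aestronglyMeasurable C ?_
  filter_upwards [h1] with x hx using hC x hx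

end

/-- the local Poincare inequality on `B` -/
theorem local_U {C₁ : ℝ} (huntilt : ∀ {κ : Type} [Fintype κ] {q : ℕ}
      (ρ : EuclideanSpace ℝ κ → ℝ), LC ρ →
      ∀ e : Fin q → EuclideanSpace ℝ κ, Orthonormal ℝ e → ∀ K : ℝ, 0 < K →
      (∀ j, ∫ x, ⟪e j, x⟫_ℝ ^ 2 ∂(mu ρ) ≤ K * (mu ρ univ).toReal) →
      (∀ (τ : EuclideanSpace ℝ (Fin q)) (f : EuclideanSpace ℝ κ → ℝ), ContDiff ℝ 1 f →
        ∃ c : ℝ, ∫ x, (f x - c) ^ 2 * tw e K τ x ∂(mu ρ) ≤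
          5 * K * ∫ x, ‖fderiv ℝ f x‖ ^ 2 * tw e K τ x ∂(mu ρ)) →
      ∀ f : EuclideanSpace ℝ κ → ℝ, ContDiff ℝ 1 f →
      ∃ c : ℝ, ∫ x, (f x - c) ^ 2 ∂(mu ρ) ≤
        C₁ * (q + 1) * K * ∫ x, ‖fderiv ℝ f x‖ ^ 2 ∂(mu ρ))
    {κ κ' : Type} [Fintype κ] [Fintype κ'] {q : ℕ} {G : Set (V κ ≃ₗᵢ[ℝ] V κ)}
    {A : κ' → (V κ →ₗ[ℝ] V κ)} {e : Fin q → V κ} {κ0 cV : ℝ} {ρ : V κ → ℝ}
    (h : LD G A e κ0 cV) (hρ : GD G ρ) (hb : Bdd ρ) (h1 : mu ρ univ = 1) (s : ℝ) (hs : 0 < s)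
    (hmom : ∀ θ : V κ, ∫ x, ⟪θ, x⟫_ℝ ^ 2 ∂(mu ρ) ≤ s * ‖θ‖ ^ 2) (L : ℝ) (hL0 : 0 ≤ L)
    (B : Set (V κ)) (hBc : Convex ℝ B) (hBm : MeasurableSet B)
    (hBi : ∀ g ∈ G, ∀ x, g x ∈ B ↔ x ∈ B)
    (hL : ∀ x ∈ B, ∀ w, ∑ k, ⟪w, A k x⟫_ℝ ^ 2 ≤ L * ‖w‖ ^ 2)
    (K : ℝ) (hK : K = 4 * L / κ0 + 4 * L / cV + 2 * s)
    (hhalf : 1 / 2 ≤ (mu ρ B).toReal) (f : V κ → ℝ) (hf : ContDiff ℝ 1 f) :
    ∃ c : ℝ, ∫ x in B, (f x - c) ^ 2 ∂(mu ρ) ≤
      C₁ * (q + 1) * K * ∫ x in B, ‖fderiv ℝ f x‖ ^ 2 ∂(mu ρ) := by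
  have hprob : IsProbabilityMeasure (mu ρ) := ⟨h1⟩
  have hk := h.kpos
  have hc := h.cpos
  have hK0 : 0 < K := by rw [hK]; positivity
  have hball := ball_null hρ.meas hb
  have hD := hρ.indicator B hBc hBm hBi
  have hres : mu (B.indicator ρ) = (mu ρ).restrict B := mu_indicator ρ B hBm
  have hle : ∀ x, B.indicator ρ x ≤ ρ x := fun x => Set.indicator_le_self' (fun _ _ => hρ.nonneg _) x
  have hbU : Bdd (B.indicator ρ) := by
    obtain ⟨R, hR⟩ := hb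
    refine ⟨R, fun x hx => le_antisymm ?_ (hD.nonneg x)⟩
    rw [← hR x hx]
    exact hle x
  have hfinU : mu (B.indicator ρ) univ ≠ ⊤ := by
    have := (mu_mono ρ (B.indicator ρ) hle univ).trans_eq h1
    exact ne_top_of_le_ne_top ENNReal.one_ne_top this
  have hneU : mu (B.indicator ρ) ≠ 0 := by
    intro h0
    rw [hres] at h0
    have h2 : mu ρ B = 0 := by
      rw [← Measure.restrict_apply_univ, h0]
      simp
    rw [h2] at hhalf
    norm_num at hhalf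
  have hLC : LC (B.indicator ρ) := ⟨hD.nonneg, hD.meas, hD.logc, hbU, hfinU, hneU⟩
  obtain ⟨c, hc'⟩ := huntilt (B.indicator ρ) hLC e h.orth
    K hK0 (by
      intro j
      rw [hres, Measure.restrict_apply_univ]
      have h2 : ∫ x in B, ⟪e j, x⟫_ℝ ^ 2 ∂(mu ρ) ≤ ∫ x, ⟪e j, x⟫_ℝ ^ 2 ∂(mu ρ) :=
        setIntegral_le_integral (intg (mu ρ) hball _ (by fun_prop))
          (ae_of_all _ fun x => by positivity)
      have h3 := hmom (e j)
      have h3' : ‖e j‖ = 1 := h.orth.1 j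
      rw [h3'] at h3
      have h4 : 2 * s ≤ K := by
        rw [hK]
        have : 0 ≤ 4 * L / κ0 := by positivity
        have : 0 ≤ 4 * L / cV := by positivity
        linarith
      have h5 : s ≤ K * (mu ρ B).toReal := by
        have h6 : K * (1 / 2) ≤ K * (mu ρ B).toReal := mul_le_mul_of_nonneg_left hhalf hK0.le
        linarith
      linarith)
    (by
      intro τ g hg
      have hD' := hD.tilt h.inner_fix K hK0 τ
      have hT' : St e K (fun x => B.indicator ρ x * tw e K τ x) := hD.tilt_st K hK0 τ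
      have hw0 : ∀ x : V κ, 0 ≤ tw e K τ x := fun x => (Real.exp_pos _).le
      have hwm : Measurable fun x : V κ => tw e K τ x := (tw_cont e K τ).measurable
      have hw1 : ∀ x : V κ, tw e K τ x ≤ 1 := fun x => by
        unfold tw
        rw [Real.exp_le_one_iff, neg_nonpos]
        positivity
      have hle' : ∀ x, B.indicator ρ x * tw e K τ x ≤ ρ x :=
        fun x => (mul_le_of_le_one_right (hD.nonneg x) (hw1 x)).trans (hle x)
      have hb' : Bdd (fun x => B.indicator ρ x * tw e K τ x) := by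
        obtain ⟨R, hR⟩ := hbU
        exact ⟨R, fun x hx => by simp only [hR x hx, zero_mul]⟩
      have hfin' : mu (fun x => B.indicator ρ x * tw e K τ x) univ ≠ ⊤ := by
        have := (mu_mono ρ _ hle' univ).trans_eq h1
        exact ne_top_of_le_ne_top ENNReal.one_ne_top this
      obtain ⟨c, hc2⟩ := local_poinc h hD' hb' hfin' L hL0
        (fun x hx w => hL x (by
          by_contra hcon
          exact hx (by simp only [Set.indicator_of_notMem hcon, zero_mul])) w) K hK0 hT' g hg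
      rw [integral_mu_mul _ _ _ hD.nonneg hD.meas hw0 hwm,
        integral_mu_mul _ _ _ hD.nonneg hD.meas hw0 hwm] at hc2
      refine ⟨c, hc2.trans (mul_le_mul_of_nonneg_right ?_ ?_)⟩
      · have e1 : 0 ≤ L / κ0 := by positivity
        have e2 : 0 ≤ L / cV := by positivity
        have e3 : 4 * L / κ0 = 4 * (L / κ0) := by ring
        have e4 : 4 * L / cV = 4 * (L / cV) := by ring
        have e5 : L / cV ≤ K := by rw [hK, e3, e4]; linarith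
        have e6 : 4 * L / κ0 ≤ K := by rw [hK, e3, e4]; linarith
        have e7 : max K (L / cV) ≤ K := max_le le_rfl e5
        linarith
      · exact integral_nonneg fun x => mul_nonneg (by positivity) (hw0 x))
    f hf
  rw [hres] at hc'
  exact ⟨c, hc'⟩

/-- **Gluing**: from the local Poincare inequality and tails to the Poincare inequality. -/
theorem core : ∃ C : ℝ, 0 < C ∧ ∀ {κ κ' : Type} [Fintype κ] [Fintype κ'] {q : ℕ}
    {G : Set (V κ ≃ₗᵢ[ℝ] V κ)} {A : κ' → (V κ →ₗ[ℝ] V κ)} {e : Fin q → V κ} {κ0 cV : ℝ}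
    {ρ : V κ → ℝ}, LD G A e κ0 cV → GD G ρ → Bdd ρ → mu ρ univ = 1 → ∀ s : ℝ, 0 < s →
    (∀ θ : V κ, ∫ x, ⟪θ, x⟫_ℝ ^ 2 ∂(mu ρ) ≤ s * ‖θ‖ ^ 2) → ∀ L : ℝ, 0 ≤ L →
    ∀ B : Set (V κ), Convex ℝ B → MeasurableSet B → (∀ g ∈ G, ∀ x, g x ∈ B ↔ x ∈ B) →
    (∀ x ∈ B, ∀ w, ∑ k, ⟪w, A k x⟫_ℝ ^ 2 ≤ L * ‖w‖ ^ 2) → ∀ L' a : ℝ, 0 < L' → 6 ≤ a →
    mu ρ Bᶜ ≤ ENNReal.ofReal (Real.exp (-(4 * a))) →
    (∀ r : ℝ, 2 * L' * a ≤ r → mu ρ (Metric.closedBall 0 r)ᶜ ≤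
      ENNReal.ofReal (Real.exp (-(r / L')))) →
    ∀ f : V κ → ℝ, ContDiff ℝ 1 f →
    ∫ x, f x ^ 2 ∂(mu ρ) - (∫ x, f x ∂(mu ρ)) ^ 2 ≤
      C * ((q + 1) * (4 * L / κ0 + 4 * L / cV + 2 * s) + L' ^ 2) *
        ∫ x, ‖fderiv ℝ f x‖ ^ 2 ∂(mu ρ) := by
  obtain ⟨C₀, hC₀, hsmall⟩ := Pool.Agent.H212R2.KLS.small_l2
  obtain ⟨C₁, hC₁, huntilt⟩ := untiltq
  refine ⟨4 * C₁ + 8 * C₀ ^ 2, by positivity, ?_⟩
  intro κ κ' _ _ q G A e κ0 cV ρ h hρ hb h1 s hs hmom L hL0 B hBc hBm hBi hL L' a hL' ha hUc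
    htail f hf
  have hprob : IsProbabilityMeasure (mu ρ) := ⟨h1⟩
  have hk := h.kpos
  have hc := h.cpos
  have hball := ball_null hρ.meas hb
  have hhalf : 1 / 2 ≤ (mu ρ B).toReal := by
    have h2 : (mu ρ).real Bᶜ ≤ Real.exp (-(4 * a)) := by
      rw [measureReal_def]
      exact ENNReal.toReal_le_of_le_ofReal (Real.exp_pos _).le hUc
    rw [probReal_compl_eq_one_sub hBm] at h2
    have h3 : Real.exp (-(4 * a)) ≤ 1 / 2 := by
      rw [Real.exp_neg, inv_le_comm₀ (Real.exp_pos _) (by norm_num)]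
      have := Real.add_one_le_exp (4 * a)
      linarith
    rw [← measureReal_def]
    linarith
  obtain ⟨K, hK⟩ : ∃ K : ℝ, K = 4 * L / κ0 + 4 * L / cV + 2 * s := ⟨_, rfl⟩
  have hK0 : 0 < K := by rw [hK]; positivity
  rw [← hK]
  have hfinal := glue (mu ρ) hball a (C₁ * (q + 1) * K) ((C₀ * L') ^ 2)
    ha (by positivity) (by positivity) ?_ B hBm hUc ?_ f hf
  · refine hfinal.trans (mul_le_mul_of_nonneg_right ?_ (integral_nonneg fun x => by positivity))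
    have e1 : 0 ≤ C₀ ^ 2 * ((q + 1) * K) := by positivity
    have e2 : 0 ≤ C₁ * L' ^ 2 := by positivity
    nlinarith
  · intro g hg hgs
    exact hsmall (mu ρ) h1 hball (fun f hf hf0 hf1 hfs r hr hBr =>
      Pool.Agent.H212R2.KLS.small_l1 volume ρ hρ.nonneg hρ.meas hρ.logc hb (mu ρ) rfl h1
        f hf hf0 hf1 hfs r hr hBr)
      L' a hL' (by linarith) htail g hg hgs
  · intro g hg
    exact local_U huntilt h hρ hb h1 s hs hmom L hL0 B hBc hBm hBi hL K hK hhalf g hg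

end Pool.Agent.TH591.TT
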