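import Pool.Agent.TH591.TT.Rep
import Pool.Agent.TH591.TT.Loc

/-!
# Tuples of matrices and vectors: the Lie algebra data
-/

set_option autoImplicit false

namespace Pool.Agent.TH591.TT

open MeasureTheory Set Matrix
open scoped ENNReal InnerProductSpace
open Pool.Agent.H888R2.KC (KI Km ip Km_skew Km_complete Km_parseval)

section algebra

variable {N : ℕ}

theorem Km_tp (k : KI N) : (Km ℝ k)ᵀ = - Km ℝ k := by
  rw [← Matrix.conjTranspose_eq_transpose_of_trivial, Km_skew]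

theorem Km_trace (k : KI N) : (Km ℝ k).trace = 0 := by
  have h1 := Matrix.trace_transpose (Km ℝ k)
  rw [Km_tp, Matrix.trace_neg] at h1
  linarith

theorem ip_hs (A B : Matrix (Fin N) (Fin N) ℝ) : ip A B = hs A B := by
  unfold ip hs
  refine Finset.sum_congr rfl fun i _ => Finset.sum_congr rfl fun j _ => ?_
  simp

theorem sumKMK (M : Matrix (Fin N) (Fin N) ℝ) :
    ∑ k, Km ℝ k * M * Km ℝ k = (1 / 2 : ℝ) • (Mᵀ - M.trace • (1 : Matrix (Fin N) (Fin N) ℝ)) := by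
  have h := Pool.Agent.H888R2.KC.F5x.sum_KMK (𝕜 := ℝ) M
  rw [h, RCLike.I_to_real]
  simp

theorem sumKK : ∑ k, Km ℝ k * Km ℝ k =
    ((1 / 2 : ℝ) * (1 - N)) • (1 : Matrix (Fin N) (Fin N) ℝ) := by
  have h := sumKMK (1 : Matrix (Fin N) (Fin N) ℝ)
  simp only [Matrix.mul_one] at h
  rw [h, Matrix.transpose_one, Matrix.trace_one, Fintype.card_fin]
  ext a b
  simp only [Matrix.smul_apply, Matrix.sub_apply, smul_eq_mul]
  ring

theorem cas_vec {m : ℕ} (Y : Matrix (Fin N) (Fin m) ℝ) :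
    ∑ k : KI N, hs (Km ℝ k * Y : Matrix (Fin N) (Fin m) ℝ) (Km ℝ k * Y) =
      ((N : ℝ) - 1) / 2 * hs Y Y := by
  have h1 : ∀ k : KI N, hs (Km ℝ k * Y : Matrix (Fin N) (Fin m) ℝ) (Km ℝ k * Y) =
      hs Y (-(Km ℝ k * Km ℝ k * Y)) := by
    intro k
    rw [hs_mul_left, Km_tp, Matrix.neg_mul, ← Matrix.mul_assoc]
  rw [Finset.sum_congr rfl fun k _ => h1 k, ← hs_sum_right, Finset.sum_neg_distrib,
    ← Matrix.sum_mul, sumKK, Matrix.smul_mul, Matrix.one_mul, hs_neg_right, hs_smul_right]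
  ring

theorem cas_mat (X : Matrix (Fin N) (Fin N) ℝ) :
    ∑ k, hs (Km ℝ k * X - X * Km ℝ k) (Km ℝ k * X - X * Km ℝ k) =
      ((N : ℝ) - 1) * hs X X + hs X Xᵀ - X.trace ^ 2 := by
  have h1 : ∀ k, hs (Km ℝ k * X - X * Km ℝ k) (Km ℝ k * X - X * Km ℝ k) =
      hs X ((2 : ℝ) • (Km ℝ k * X * Km ℝ k) - Km ℝ k * Km ℝ k * X - X * (Km ℝ k * Km ℝ k)) := by
    intro k
    rw [hs_sub_left, hs_mul_left, hs_mul_right, Km_tp, ← hs_sub_right]
    congr 1
    rw [two_smul]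
    simp only [Matrix.neg_mul, Matrix.mul_neg, Matrix.mul_sub, Matrix.sub_mul, Matrix.mul_assoc]
    abel
  rw [Finset.sum_congr rfl fun k _ => h1 k, ← hs_sum_right, Finset.sum_sub_distrib,
    Finset.sum_sub_distrib, ← Finset.smul_sum, ← Finset.sum_mul, ← Finset.mul_sum, sumKMK, sumKK,
    Matrix.smul_mul, Matrix.mul_smul, Matrix.one_mul, Matrix.mul_one, smul_smul]
  rw [hs_sub_right, hs_sub_right, hs_smul_right, hs_smul_right, hs_sub_right, hs_smul_right]
  have h2 : hs X (1 : Matrix (Fin N) (Fin N) ℝ) = X.trace := by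
    rw [hs_tr, Matrix.mul_one, Matrix.trace_transpose]
  rw [h2]
  ring

theorem tr_le (hN : 1 ≤ N) (X : Matrix (Fin N) (Fin N) ℝ) :
    2 * (X.trace ^ 2 / N) ≤ hs X X + hs X Xᵀ := by
  have hN0 : (0 : ℝ) < N := by exact_mod_cast hN
  have h1 : hs (X + Xᵀ) (X + Xᵀ) = 2 * (hs X X + hs X Xᵀ) := by
    have e1 : hs Xᵀ X = hs X Xᵀ := hs_comm _ _
    have e2 : hs Xᵀ Xᵀ = hs X X := hs_tp _ _
    rw [hs_add_right, hs_comm (X + Xᵀ) X, hs_comm (X + Xᵀ) Xᵀ, hs_add_right, hs_add_right, e1, e2]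
    ring
  have h2 : ∑ a, ((X + Xᵀ) a a) ^ 2 ≤ hs (X + Xᵀ) (X + Xᵀ) := by
    unfold hs
    refine Finset.sum_le_sum fun a _ => ?_
    have := Finset.single_le_sum (f := fun b => (X + Xᵀ) a b * (X + Xᵀ) a b)
      (fun b _ => mul_self_nonneg _) (Finset.mem_univ a)
    rw [sq]
    exact this
  have h3 : (∑ a, (X + Xᵀ) a a) ^ 2 ≤ N * ∑ a, ((X + Xᵀ) a a) ^ 2 := by
    have := sq_sum_le_card_mul_sum_sq (s := (Finset.univ : Finset (Fin N)))
      (f := fun a => (X + Xᵀ) a a)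
    rwa [Finset.card_univ, Fintype.card_fin] at this
  have h4 : ∑ a, (X + Xᵀ) a a = 2 * X.trace := by
    simp only [Matrix.add_apply, Matrix.transpose_apply, Matrix.trace, Matrix.diag_apply]
    rw [Finset.mul_sum]
    exact Finset.sum_congr rfl fun a _ => by ring
  rw [h4] at h3
  rw [h1] at h2
  have h5 : X.trace ^ 2 / N * N = X.trace ^ 2 := by field_simp
  nlinarith

end algebra

section data

variable {q m N : ℕ}

/-- the fixed vectors -/
noncomputable def ee (j : Fin q) : V (Ix q m N) :=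
  mk (fun i => if i = j then (Real.sqrt N)⁻¹ • 1 else 0) 0

theorem hs_one_right (X : Matrix (Fin N) (Fin N) ℝ) : hs (1 : Matrix (Fin N) (Fin N) ℝ) X = X.trace := by
  rw [hs_tr, Matrix.transpose_one, Matrix.one_mul]

theorem inner_ee (j : Fin q) (x : V (Ix q m N)) :
    ⟪ee j, x⟫_ℝ = (Real.sqrt N)⁻¹ * (mt j x).trace := by
  rw [inner_mv]
  unfold ee
  rw [vt_mk]
  have h1 : hs (0 : Matrix (Fin N) (Fin m) ℝ) (vt x) = 0 := by simp [hs]
  rw [h1, add_zero, Finset.sum_eq_single j]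
  · rw [mt_mk, if_pos rfl, hs_comm, hs_smul_right, hs_comm, hs_one_right]
  · intro i _ hi
    rw [mt_mk, if_neg hi]
    simp [hs]
  · intro h
    exact absurd (Finset.mem_univ j) h

theorem ee_orth (hN : 1 ≤ N) : Orthonormal ℝ (fun j : Fin q => (ee j : V (Ix q m N))) := by
  classical
  have hN0 : (0 : ℝ) < N := by exact_mod_cast hN
  rw [orthonormal_iff_ite]
  intro i j
  rw [inner_ee]
  unfold ee
  rw [mt_mk]
  split_ifs with h
  · rw [Matrix.trace_smul, Matrix.trace_one, Fintype.card_fin, smul_eq_mul, ← mul_assoc, ← mul_inv,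
      Real.mul_self_sqrt hN0.le]
    field_simp
  · simp

theorem ee_fix (g : Matrix (Fin N) (Fin N) ℝ) (hg : g ∈ Matrix.orthogonalGroup (Fin N) ℝ)
    (j : Fin q) : RR g (ee j : V (Ix q m N)) = ee j := by
  refine ext_mv (fun i => ?_) ?_
  · rw [mt_RR]
    unfold ee
    rw [mt_mk]
    split_ifs
    · rw [Matrix.mul_smul, Matrix.smul_mul, Matrix.mul_one, orth1 hg]
    · rw [Matrix.mul_zero, Matrix.zero_mul]
  · rw [vt_RR]
    unfold ee
    rw [vt_mk, Matrix.mul_zero]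

theorem casimir (hN : 2 ≤ N) (x : V (Ix q m N)) :
    ((N : ℝ) - 2) / 2 * (‖x‖ ^ 2 - ∑ j, ⟪ee j, x⟫_ℝ ^ 2) ≤ ∑ k, ‖DR (Km ℝ k) x‖ ^ 2 := by
  have hN2 : (2 : ℝ) ≤ N := by exact_mod_cast hN
  have hN0 : (0 : ℝ) < N := by linarith
  have h1 : ∑ k, ‖DR (Km ℝ k) x‖ ^ 2 = ∑ j, (((N : ℝ) - 1) * hs (mt j x) (mt j x) +
      hs (mt j x) (mt j x)ᵀ - (mt j x).trace ^ 2) + ((N : ℝ) - 1) / 2 * hs (vt x) (vt x) := by
    simp only [norm_mv, mt_DR, vt_DR]
    rw [Finset.sum_add_distrib, Finset.sum_comm, cas_vec]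
    congr 1
    exact Finset.sum_congr rfl fun j _ => cas_mat _
  rw [h1, norm_mv]
  have h2 : ∀ j : Fin q, ⟪ee j, x⟫_ℝ ^ 2 = (mt j x).trace ^ 2 / N := by
    intro j
    rw [inner_ee, mul_pow, inv_pow, Real.sq_sqrt hN0.le]
    field_simp
  simp only [h2]
  have h3 : ∀ j : Fin q, ((N : ℝ) - 2) / 2 * (hs (mt j x) (mt j x) - (mt j x).trace ^ 2 / N) ≤
      ((N : ℝ) - 1) * hs (mt j x) (mt j x) + hs (mt j x) (mt j x)ᵀ - (mt j x).trace ^ 2 := by
    intro j
    have h4 := tr_le (by omega) (mt j x)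
    have h5 := hs_nonneg (mt j x)
    obtain ⟨t, ht⟩ : ∃ t : ℝ, t = (mt j x).trace ^ 2 / N := ⟨_, rfl⟩
    have ht2 : (mt j x).trace ^ 2 = N * t := by rw [ht]; field_simp
    rw [← ht] at h4 ⊢
    rw [ht2]
    have h6 : t ≤ hs (mt j x) (mt j x) := by
      have h7 : hs (mt j x) (mt j x)ᵀ ≤ hs (mt j x) (mt j x) := by
        have h8 := hs_nonneg (mt j x - (mt j x)ᵀ)
        rw [hs_sub_left, hs_sub_right, hs_sub_right, hs_tp, hs_comm (mt j x)ᵀ (mt j x)] at h8
        linarith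
      linarith
    have h7 : 0 ≤ (N : ℝ) - 2 := by linarith
    nlinarith [mul_nonneg h7 (sub_nonneg.2 h6)]
  have h4 : ((N : ℝ) - 2) / 2 * hs (vt x) (vt x) ≤ ((N : ℝ) - 1) / 2 * hs (vt x) (vt x) :=
    mul_le_mul_of_nonneg_right (by linarith) (hs_nonneg _)
  have h5 := Finset.sum_le_sum fun j (_ : j ∈ (Finset.univ : Finset (Fin q))) => h3 j
  rw [← Finset.mul_sum, Finset.sum_sub_distrib] at h5
  linarith

/-- product rule for the entries -/
theorem mul_der {a b c : Type} [Fintype b] (A : ℝ → Matrix a b ℝ) (B : ℝ → Matrix b c ℝ)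
    (A' : Matrix a b ℝ) (B' : Matrix b c ℝ) (hA : ∀ i j, HasDerivAt (fun t => A t i j) (A' i j) 0)
    (hB : ∀ i j, HasDerivAt (fun t => B t i j) (B' i j) 0) (i : a) (j : c) :
    HasDerivAt (fun t => (A t * B t) i j) ((A' * B 0 + A 0 * B') i j) 0 := by
  have h1 : ∀ t, (A t * B t) i j = ∑ k, A t i k * B t k j := fun t => Matrix.mul_apply
  have h2 : (A' * B 0 + A 0 * B') i j = ∑ k, (A' i k * B 0 k j + A 0 i k * B' k j) := by
    rw [Matrix.add_apply, Matrix.mul_apply, Matrix.mul_apply, Finset.sum_add_distrib]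
  simp only [h1]
  rw [h2]
  apply HasDerivAt.fun_sum
  intro k _
  exact (hA i k).mul (hB k j)

section
open scoped Matrix.Norms.Operator

set_option backward.isDefEq.respectTransparency false in
theorem exp_der (K : Matrix (Fin N) (Fin N) ℝ) (L : Matrix (Fin N) (Fin N) ℝ →ₗ[ℝ] ℝ) :
    HasDerivAt (fun t : ℝ => L (NormedSpace.exp (t • K))) (L K) 0 := by
  have h1 : HasDerivAt (fun t : ℝ => NormedSpace.exp (t • K)) K 0 := by
    have := hasDerivAt_exp_smul_const' (𝕂 := ℝ) K (0 : ℝ)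
    rw [zero_smul, NormedSpace.exp_zero, mul_one] at this
    exact this
  exact (LinearMap.toContinuousLinearMap L).hasFDerivAt.comp_hasDerivAt (0 : ℝ) h1

end

/-- the entry as a linear map -/
def en (a b : Fin N) : Matrix (Fin N) (Fin N) ℝ →ₗ[ℝ] ℝ where
  toFun A := A a b
  map_add' _ _ := rfl
  map_smul' _ _ := rfl

theorem exp_path (K : Matrix (Fin N) (Fin N) ℝ) (hK : Kᵀ = -K) :
    ∃ U : ℝ → Matrix (Fin N) (Fin N) ℝ, (∀ t, U t ∈ Matrix.orthogonalGroup (Fin N) ℝ) ∧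
      U 0 = 1 ∧ (∀ s t, U (s + t) = U s * U t) ∧
      ∀ a b, HasDerivAt (fun t : ℝ => U t a b) (K a b) 0 := by
  obtain ⟨U, hU⟩ : ∃ U : ℝ → Matrix (Fin N) (Fin N) ℝ, U = fun t => NormedSpace.exp (t • K) :=
    ⟨_, rfl⟩
  have hadd : ∀ s t : ℝ, U (s + t) = U s * U t := by
    intro s t
    simp only [hU]
    rw [add_smul]
    exact Matrix.exp_add_of_commute _ _ ((Commute.refl K).smul_left s |>.smul_right t)
  have h0 : U 0 = 1 := by
    rw [hU]
    simp
  refine ⟨U, ?_, h0, hadd, ?_⟩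
  · intro t
    have hstar : star (U t) = U (-t) := by
      rw [hU]
      show (NormedSpace.exp (t • K))ᵀ = NormedSpace.exp ((-t) • K)
      rw [← Matrix.exp_transpose, Matrix.transpose_smul, hK]
      simp
    rw [Matrix.mem_orthogonalGroup_iff]
    show U t * star (U t) = 1
    rw [hstar, ← hadd, add_neg_cancel, h0]
  · intro a b
    rw [hU]
    exact exp_der K (en a b)

theorem RR_path (K : Matrix (Fin N) (Fin N) ℝ) (hK : Kᵀ = -K) :
    ∃ U : ℝ → (V (Ix q m N) ≃ₗᵢ[ℝ] V (Ix q m N)), (∀ t, U t ∈ GG q m N) ∧ Path U (DR K) := by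
  obtain ⟨U, hU, h0, hadd, hder⟩ := exp_path K hK
  refine ⟨fun t => iso (U t) (hU t), fun t => iso_mem _ _, ?_, ?_, ?_⟩
  · intro x
    show RR (U 0) x = x
    rw [h0, RR_one]
  · intro s t x
    show RR (U (s + t)) x = RR (U s) (RR (U t) x)
    rw [RR_RR, hadd]
  · intro x
    show HasDerivAt (fun t => RR (U t) x) (DR K x) 0
    have h1 : HasDerivAt (fun t : ℝ => fun p : Ix q m N => (RR (U t) x) p)
        (fun p => (DR K x) p) 0 := by
      rw [hasDerivAt_pi]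
      intro p
      rcases p with ⟨j, a, b⟩ | ⟨i, a⟩
      · have e1 := mul_der (fun t => U t) (fun _ => mt j x) K 0 hder
          (fun a b => hasDerivAt_const _ _)
        have e2 := mul_der (fun t => U t * mt j x) (fun t => (U t)ᵀ) (K * mt j x + U 0 * 0) Kᵀ e1
          (fun a b => hder b a) a b
        have e3 : ((K * mt j x + U 0 * 0) * (U 0)ᵀ + U 0 * mt j x * Kᵀ) =
            mt j (DR K x) := by
          rw [h0, mt_DR, hK, Matrix.transpose_one, Matrix.mul_zero, add_zero, Matrix.mul_one,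
            Matrix.one_mul, Matrix.mul_neg, sub_eq_add_neg]
        rw [e3] at e2
        exact e2
      · have e1 := mul_der (fun t => U t) (fun _ => vt x) K 0 hder
          (fun a b => hasDerivAt_const _ _) a i
        have e3 : (K * vt x + U 0 * (0 : Matrix (Fin N) (Fin m) ℝ)) = vt (DR K x) := by
          rw [vt_DR, Matrix.mul_zero, add_zero]
        rw [e3] at e1
        exact e1
    exact ((PiLp.continuousLinearEquiv 2 ℝ
      (fun _ : Ix q m N => ℝ)).symm.hasFDerivAt).comp_hasDerivAt (0 : ℝ) h1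

theorem data (hN : 3 ≤ N) : ∃ κ0 : ℝ, (N : ℝ) - 2 ≤ κ0 ∧
    LD (GG q m N) (fun k : KI N => DR (Km ℝ k)) (fun j : Fin q => (ee j : V (Ix q m N)))
      κ0 (((N : ℝ) - 2) / 2) := by
  have hN3 : (3 : ℝ) ≤ N := by exact_mod_cast hN
  obtain ⟨κ, hκ, hk⟩ := Pool.Agent.H888R2.KC.F5x.kil ℝ N
  refine ⟨κ, hκ, ?_, ?_, by linarith, by linarith, ee_orth (by omega), casimir (by omega), ?_, ?_⟩
  · intro k x y
    exact DR_skew (Km_tp k) x y
  · refine ⟨Pool.Agent.H888R2.KC.F5x.cc ℝ, Pool.Agent.H888R2.KC.F5x.cc1,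
      Pool.Agent.H888R2.KC.F5x.cc2, ?_, ?_⟩
    · intro i j x
      have h1 := Pool.Agent.H888R2.KC.F5x.br_Km (𝕜 := ℝ) i j
      unfold Pool.Agent.H888R2.KC.F5x.br at h1
      rw [DR_comm, h1, DR_sum]
    · intro k x
      obtain ⟨s, hs⟩ := hk k
      have hs0 : s = 0 := by
        have h1 := congrArg Matrix.trace hs
        rw [Matrix.trace_sum, Matrix.trace_add, Matrix.trace_smul, Matrix.trace_smul, Km_trace,
          Matrix.trace_one, Fintype.card_fin] at h1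
        simp only [Matrix.trace_smul, Km_trace, smul_zero, mul_zero, Finset.sum_const_zero, zero_add,
          smul_eq_mul] at h1
        rcases mul_eq_zero.1 h1.symm with h2 | h2
        · exact h2
        · exfalso
          linarith
      rw [hs0, zero_smul, add_zero] at hs
      rw [← DR_sum, hs, DR_smul]
  · intro k
    exact RR_path (Km ℝ k) (Km_tp k)
  · rintro g ⟨h, hh, hg⟩ j
    rw [hg]
    exact ee_fix h hh j

end data

end Pool.Agent.TH591.TT
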