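import Pool.Agent.H888R2.KT.Defs

/-!
# Tails of operator norms from tails on single vectors
-/

set_option autoImplicit false

namespace Pool.Agent.TH591.TT

open MeasureTheory Set
open scoped ENNReal InnerProductSpace

theorem net_tail {E F W : Type} [NormedAddCommGroup E] [NormedSpace ℝ E] [MeasurableSpace E]
    [BorelSpace E] [SecondCountableTopology E]
    [NormedAddCommGroup F] [InnerProductSpace ℝ F] [FiniteDimensional ℝ F] [MeasurableSpace F]
    [BorelSpace F] [NormedAddCommGroup W] [NormedSpace ℝ W]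
    (μ : Measure E) [IsProbabilityMeasure μ] (T : E → (F →L[ℝ] W)) (hT : Continuous T)
    (t : ℝ) (ht : 0 < t) (K : ℝ≥0∞)
    (hK : ∀ v : F, ‖v‖ ≤ 1 → μ {x | 3 / 4 * t ≤ ‖T x v‖} ≤ K) :
    μ {x | t < ‖T x‖} ≤ ENNReal.ofReal ((8 : ℝ) ^ Module.finrank ℝ F) * K := by
  have : ProperSpace F := FiniteDimensional.proper ℝ F
  obtain ⟨ν, hν⟩ : ∃ ν : Measure F, ν = Measure.addHaar := ⟨_, rfl⟩
  have hνh : ν.IsAddHaarMeasure := by rw [hν]; infer_instance
  set S : Set (E × F) := {p | ‖p.2‖ ≤ 1 ∧ 3 / 4 * t ≤ ‖T p.1 p.2‖} with hS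
  have hev : Continuous fun p : E × F => ‖T p.1 p.2‖ :=
    ((hT.comp continuous_fst).clm_apply continuous_snd).norm
  have hSc : IsClosed S := by
    apply IsClosed.inter
    · exact isClosed_le (continuous_norm.comp continuous_snd) continuous_const
    · exact isClosed_le continuous_const hev
  have hSm : MeasurableSet S := hSc.measurableSet
  set B : Set F := Metric.closedBall 0 1 with hB
  have hBm : MeasurableSet B := Metric.isClosed_closedBall.measurableSet
  have hB0 : ν B ≠ 0 := (Metric.measure_closedBall_pos ν _ one_pos).ne'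
  have hBt : ν B ≠ ⊤ := measure_closedBall_lt_top.ne
  set dd := Module.finrank ℝ F with hdd
  set c : ℝ≥0∞ := ENNReal.ofReal ((1 / 8 : ℝ) ^ dd) * ν B with hc
  -- every bad operator has a large slice
  have hslice : ∀ x : E, t < ‖T x‖ → c ≤ ν (Prod.mk x ⁻¹' S) := by
    intro x hx
    have hcx : Continuous fun v : F => ‖T x v‖ := (T x).continuous.norm
    obtain ⟨vs, hvsB, hmax⟩ := (isCompact_closedBall (0 : F) 1).exists_isMaxOn
      ⟨0, by simp⟩ hcx.continuousOn
    have hvs1 : ‖vs‖ ≤ 1 := by simpa using hvsB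
    have hmax' : ∀ v : F, ‖v‖ ≤ 1 → ‖T x v‖ ≤ ‖T x vs‖ := fun v hv' => hmax (by simpa using hv')
    have hop : ‖T x‖ ≤ ‖T x vs‖ := by
      refine ContinuousLinearMap.opNorm_le_bound _ (norm_nonneg _) fun v => ?_
      rcases eq_or_ne v 0 with rfl | hv
      · simp
      · have hn : 0 < ‖v‖ := norm_pos_iff.2 hv
        have h1 := hmax' (‖v‖⁻¹ • v) (by
          rw [norm_smul, norm_inv, norm_norm, inv_mul_cancel₀ hn.ne'])
        rw [map_smul, norm_smul, norm_inv, norm_norm, inv_mul_le_iff₀ hn] at h1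
        linarith
    have hsub : Metric.closedBall ((7 / 8 : ℝ) • vs) (1 / 8) ⊆ Prod.mk x ⁻¹' S := by
      intro v hv'
      rw [Metric.mem_closedBall, dist_eq_norm] at hv'
      obtain ⟨w, hw⟩ : ∃ w : F, w = v - (7 / 8 : ℝ) • vs := ⟨_, rfl⟩
      rw [← hw] at hv'
      have hvw : v = (7 / 8 : ℝ) • vs + w := by rw [hw]; abel
      have hn78 : ‖(7 / 8 : ℝ)‖ = 7 / 8 := by
        rw [Real.norm_eq_abs, abs_of_pos (by norm_num)]
      constructor
      · change ‖v‖ ≤ 1
        calc ‖v‖ = ‖(7 / 8 : ℝ) • vs + w‖ := by rw [← hvw]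
          _ ≤ ‖(7 / 8 : ℝ) • vs‖ + ‖w‖ := norm_add_le _ _
          _ ≤ 7 / 8 * 1 + 1 / 8 := by
            rw [norm_smul, hn78]
            gcongr
          _ = 1 := by norm_num
      · change 3 / 4 * t ≤ ‖T x v‖
        have b1 : ‖T x w‖ ≤ ‖T x‖ * (1 / 8) :=
          ((T x).le_opNorm w).trans (mul_le_mul_of_nonneg_left hv' (norm_nonneg _))
        have b2 : ‖T x ((7 / 8 : ℝ) • vs)‖ = 7 / 8 * ‖T x vs‖ := by
          rw [map_smul, norm_smul, hn78]
        have b3 := norm_sub_norm_le (T x ((7 / 8 : ℝ) • vs)) (-(T x w))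
        rw [norm_neg, sub_neg_eq_add, ← map_add, ← hvw, b2] at b3
        linarith
    calc c = ν (Metric.closedBall ((7 / 8 : ℝ) • vs) (1 / 8)) := by
          rw [hc, hB, Measure.addHaar_closedBall' _ _ (by norm_num : (0 : ℝ) ≤ 1 / 8)]
      _ ≤ _ := measure_mono hsub
  -- Markov
  have hmk : c * μ {x | t < ‖T x‖} ≤ ∫⁻ x, ν (Prod.mk x ⁻¹' S) ∂μ := by
    calc c * μ {x | t < ‖T x‖} ≤ c * μ {x | c ≤ ν (Prod.mk x ⁻¹' S)} := by
          exact mul_le_mul_right (measure_mono fun X hX => hslice X hX) c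
      _ ≤ _ := mul_meas_ge_le_lintegral (measurable_measure_prodMk_left hSm) c
  -- Tonelli
  have hton : ∫⁻ x, ν (Prod.mk x ⁻¹' S) ∂μ ≤ K * ν B := by
    rw [← Measure.prod_apply hSm, Measure.prod_apply_symm hSm]
    calc ∫⁻ v, μ ((fun x => (x, v)) ⁻¹' S) ∂ν ≤ ∫⁻ v, B.indicator (fun _ => K) v ∂ν := by
          apply lintegral_mono
          intro v
          by_cases hvB : v ∈ B
          · rw [indicator_of_mem hvB]
            have hv1 : ‖v‖ ≤ 1 := by simpa [hB] using hvB
            refine le_trans (measure_mono ?_) (hK v hv1)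
            intro x hx
            exact hx.2
          · rw [indicator_of_notMem hvB]
            have : (fun x : E => (x, v)) ⁻¹' S = ∅ := by
              ext x
              simp only [mem_preimage, mem_empty_iff_false, iff_false]
              intro hx
              apply hvB
              simpa [hB] using hx.1
            change μ ((fun x : E => (x, v)) ⁻¹' S) ≤ 0
            rw [this]; simp
      _ = K * ν B := by
        rw [lintegral_indicator hBm, lintegral_const, Measure.restrict_apply MeasurableSet.univ,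
          univ_inter]
  -- divide
  have hfin : ENNReal.ofReal ((1 / 8 : ℝ) ^ dd) * μ {x | t < ‖T x‖} ≤ K := by
    have h9 : (ENNReal.ofReal ((1 / 8 : ℝ) ^ dd) * μ {x | t < ‖T x‖}) * ν B
        ≤ K * ν B := by
      calc (ENNReal.ofReal ((1 / 8 : ℝ) ^ dd) * μ {x | t < ‖T x‖}) * ν B
          = c * μ {x | t < ‖T x‖} := by rw [hc]; ring
        _ ≤ _ := hmk.trans hton
    exact (ENNReal.mul_le_mul_iff_left hB0 hBt).1 h9
  calc μ {x | t < ‖T x‖}
      = ENNReal.ofReal ((8 : ℝ) ^ dd) *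
        (ENNReal.ofReal ((1 / 8 : ℝ) ^ dd) * μ {x | t < ‖T x‖}) := by
        rw [← mul_assoc, ← ENNReal.ofReal_mul (by positivity), ← mul_pow]
        norm_num
    _ ≤ _ := by gcongr

end Pool.Agent.TH591.TT
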