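import Pool.Agent.TH591.TT.Lie

/-!
# Tuples of matrices and vectors: operator norms
-/

set_option autoImplicit false

namespace Pool.Agent.TH591.TT

open MeasureTheory Set Matrix
open scoped ENNReal InnerProductSpace
open Pool.Agent.H888R2.KC (KI Km ip Km_skew Km_complete Km_parseval)

section op

variable {a b c : Type} [Fintype a] [Fintype b] [Fintype c] [DecidableEq a] [DecidableEq b]
  [DecidableEq c]

/-- the operator of a matrix -/
noncomputable def tm : Matrix a b ℝ →ₗ[ℝ] (EuclideanSpace ℝ b →L[ℝ] EuclideanSpace ℝ a) :=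
  (LinearMap.toContinuousLinearMap : (EuclideanSpace ℝ b →ₗ[ℝ] EuclideanSpace ℝ a) ≃ₗ[ℝ] _).toLinearMap
    ∘ₗ (Matrix.toLpLin 2 2).toLinearMap

omit [DecidableEq a] in
theorem tm_apply (X : Matrix a b ℝ) (v : EuclideanSpace ℝ b) :
    tm X v = WithLp.toLp 2 (X *ᵥ v.ofLp) := rfl

theorem tm_mul (X : Matrix a b ℝ) (Y : Matrix b c ℝ) (v : EuclideanSpace ℝ c) :
    tm (X * Y) v = tm X (tm Y v) := by
  rw [tm_apply, tm_apply, tm_apply, ← Matrix.mulVec_mulVec]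

theorem tm_one (v : EuclideanSpace ℝ b) : tm (1 : Matrix b b ℝ) v = v := by
  rw [tm_apply, Matrix.one_mulVec]

theorem inner_tm (X : Matrix a b ℝ) (v : EuclideanSpace ℝ a) (w : EuclideanSpace ℝ b) :
    ⟪tm Xᵀ v, w⟫_ℝ = ⟪v, tm X w⟫_ℝ := by
  rw [tm_apply, tm_apply, PiLp.inner_apply, PiLp.inner_apply]
  have h1 : ∀ (x y : ℝ), ⟪x, y⟫_ℝ = x * y := fun x y => by simp [mul_comm]
  simp only [h1, Matrix.mulVec, dotProduct, Matrix.transpose_apply, Finset.sum_mul, Finset.mul_sum]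
  rw [Finset.sum_comm]
  refine Finset.sum_congr rfl fun i _ => Finset.sum_congr rfl fun j _ => by ring

theorem norm_tp (X : Matrix a b ℝ) : ‖tm Xᵀ‖ ≤ ‖tm X‖ := by
  refine ContinuousLinearMap.opNorm_le_bound _ (norm_nonneg _) fun v => ?_
  have h1 : ‖tm Xᵀ v‖ ^ 2 ≤ ‖tm X‖ * ‖v‖ * ‖tm Xᵀ v‖ := by
    rw [← real_inner_self_eq_norm_sq, inner_tm]
    refine (real_inner_le_norm _ _).trans ?_
    have := (tm X).le_opNorm (tm Xᵀ v)
    calc ‖v‖ * ‖tm X (tm Xᵀ v)‖ ≤ ‖v‖ * (‖tm X‖ * ‖tm Xᵀ v‖) :=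
          mul_le_mul_of_nonneg_left this (norm_nonneg _)
      _ = _ := by ring
  rcases (norm_nonneg (tm Xᵀ v)).eq_or_lt with h0 | h0
  · rw [← h0]
    positivity
  · nlinarith

theorem norm_orth (g : Matrix b b ℝ) (hg : gᵀ * g = 1) (v : EuclideanSpace ℝ b) :
    ‖tm g v‖ = ‖v‖ := by
  have h1 : ‖tm g v‖ ^ 2 = ‖v‖ ^ 2 := by
    rw [← real_inner_self_eq_norm_sq, ← real_inner_self_eq_norm_sq, ← inner_tm, ← tm_mul, hg,
      tm_one]
  exact (sq_eq_sq₀ (norm_nonneg _) (norm_nonneg _)).1 h1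

theorem norm_left (g : Matrix a a ℝ) (hg : gᵀ * g = 1) (X : Matrix a b ℝ) :
    ‖tm (g * X)‖ ≤ ‖tm X‖ := by
  refine ContinuousLinearMap.opNorm_le_bound _ (norm_nonneg _) fun v => ?_
  rw [tm_mul, norm_orth g hg]
  exact (tm X).le_opNorm v

theorem norm_right (g : Matrix b b ℝ) (hg : gᵀ * g = 1) (X : Matrix a b ℝ) :
    ‖tm (X * g)‖ ≤ ‖tm X‖ := by
  refine ContinuousLinearMap.opNorm_le_bound _ (norm_nonneg _) fun v => ?_
  rw [tm_mul]
  refine ((tm X).le_opNorm _).trans ?_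
  rw [norm_orth g hg]

omit [DecidableEq a] [DecidableEq c] in
/-- Hilbert-Schmidt norm of a product -/
theorem hs_mul_le (X : Matrix a b ℝ) (W : Matrix b c ℝ) :
    hs (X * W) (X * W) ≤ ‖tm X‖ ^ 2 * hs W W := by
  have h1 : hs (X * W) (X * W) = ∑ k, ‖tm X (WithLp.toLp 2 fun j => W j k)‖ ^ 2 := by
    unfold hs
    rw [Finset.sum_comm]
    refine Finset.sum_congr rfl fun k _ => ?_
    rw [EuclideanSpace.real_norm_sq_eq]
    refine Finset.sum_congr rfl fun i _ => ?_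
    rw [sq]
    rfl
  have h2 : hs W W = ∑ k, ‖(WithLp.toLp 2 fun j => W j k : EuclideanSpace ℝ b)‖ ^ 2 := by
    unfold hs
    rw [Finset.sum_comm]
    refine Finset.sum_congr rfl fun k _ => ?_
    rw [EuclideanSpace.real_norm_sq_eq]
    refine Finset.sum_congr rfl fun i _ => ?_
    rw [sq]
  rw [h1, h2, Finset.mul_sum]
  refine Finset.sum_le_sum fun k _ => ?_
  rw [← mul_pow]
  exact pow_le_pow_left₀ (norm_nonneg _) ((tm X).le_opNorm _) 2

theorem hs_one : hs (1 : Matrix b b ℝ) 1 = Fintype.card b := by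
  rw [hs_tr, Matrix.transpose_one, Matrix.one_mul, Matrix.trace_one]

theorem hs_le_card (X : Matrix a b ℝ) : hs X X ≤ Fintype.card b * ‖tm X‖ ^ 2 := by
  have h1 := hs_mul_le X (1 : Matrix b b ℝ)
  rw [Matrix.mul_one, hs_one] at h1
  linarith

omit [DecidableEq a] [DecidableEq b] in
theorem hs_sub_le (A B : Matrix a b ℝ) : hs (A - B) (A - B) ≤ 2 * hs A A + 2 * hs B B := by
  unfold hs
  rw [Finset.mul_sum, Finset.mul_sum, ← Finset.sum_add_distrib]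
  refine Finset.sum_le_sum fun i _ => ?_
  rw [Finset.mul_sum, Finset.mul_sum, ← Finset.sum_add_distrib]
  refine Finset.sum_le_sum fun j _ => ?_
  rw [Matrix.sub_apply]
  nlinarith [sq_nonneg (A i j + B i j)]

omit [DecidableEq a] [DecidableEq b] in
theorem hs_sum_le {ι : Type} [Fintype ι] (T : ι → Matrix a b ℝ) :
    hs (∑ k, T k) (∑ k, T k) ≤ Fintype.card ι * ∑ k, hs (T k) (T k) := by
  have h1 : (Fintype.card ι : ℝ) * ∑ k, hs (T k) (T k) =
      ∑ i, ∑ j, (Fintype.card ι : ℝ) * ∑ k, T k i j ^ 2 := by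
    unfold hs
    rw [Finset.sum_comm, Finset.mul_sum]
    refine Finset.sum_congr rfl fun i _ => ?_
    rw [Finset.sum_comm, Finset.mul_sum]
    refine Finset.sum_congr rfl fun j _ => ?_
    simp only [sq]
  rw [h1]
  unfold hs
  refine Finset.sum_le_sum fun i _ => Finset.sum_le_sum fun j _ => ?_
  rw [Matrix.sum_apply, ← sq]
  exact sq_sum_le_card_mul_sum_sq

end op

section parseval

variable {N : ℕ}

theorem parseval_le (M : Matrix (Fin N) (Fin N) ℝ) :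
    ∑ k : KI N, hs (Km ℝ k) M ^ 2 ≤ hs M M := by
  obtain ⟨A, hA⟩ : ∃ A : Matrix (Fin N) (Fin N) ℝ, A = (1 / 2 : ℝ) • (M - Mᵀ) := ⟨_, rfl⟩
  have hAs : Aᴴ = -A := by
    rw [Matrix.conjTranspose_eq_transpose_of_trivial, hA, Matrix.transpose_smul,
      Matrix.transpose_sub, Matrix.transpose_transpose, ← smul_neg, neg_sub]
  have h1 : ∀ k : KI N, hs (Km ℝ k) M = ip (Km ℝ k) A := by
    intro k
    have h2 : hs (Km ℝ k) Mᵀ = - hs (Km ℝ k) M := by
      rw [← hs_tp, Matrix.transpose_transpose, Km_tp, hs_comm, hs_neg_right, hs_comm]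
    rw [ip_hs, hA, hs_smul_right, hs_sub_right, h2]
    ring
  simp only [h1]
  rw [Km_parseval A hAs, ip_hs, hA, hs_smul_right, hs_comm, hs_smul_right, hs_sub_left,
    hs_sub_right, hs_sub_right, hs_tp]
  have h3 := hs_nonneg (M + Mᵀ)
  rw [hs_add_right, hs_comm (M + Mᵀ) M, hs_comm (M + Mᵀ) Mᵀ, hs_add_right, hs_add_right, hs_tp]
    at h3
  linarith

end parseval

section set

variable {q m N : ℕ}

/-- all operator norms are at most `r` -/
def BB (q m N : ℕ) (r : ℝ) : Set (V (Ix q m N)) :=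
  {x | (∀ j, ‖tm (mt j x)‖ ≤ r) ∧ ‖tm (vt x)‖ ≤ r}

theorem BB_closed (r : ℝ) : IsClosed (BB q m N r) := by
  have h1 : ∀ j : Fin q, Continuous fun x : V (Ix q m N) => ‖tm (mt j x)‖ := fun j =>
    ((tm ∘ₗ mt j).continuous_of_finiteDimensional).norm
  have h2 : Continuous fun x : V (Ix q m N) => ‖tm (vt x)‖ :=
    ((tm ∘ₗ vt).continuous_of_finiteDimensional).norm
  have h3 : BB q m N r = (⋂ j, {x | ‖tm (mt j x)‖ ≤ r}) ∩ {x | ‖tm (vt x)‖ ≤ r} := by
    ext x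
    simp [BB]
  rw [h3]
  exact (isClosed_iInter fun j => isClosed_le (h1 j) continuous_const).inter
    (isClosed_le h2 continuous_const)

theorem BB_convex (r : ℝ) : Convex ℝ (BB q m N r) := by
  rintro x ⟨hx1, hx2⟩ y ⟨hy1, hy2⟩ s t hs ht hst
  refine ⟨fun j => ?_, ?_⟩
  · rw [map_add, map_smul, map_smul, map_add, map_smul, map_smul]
    calc ‖s • tm (mt j x) + t • tm (mt j y)‖ ≤ ‖s • tm (mt j x)‖ + ‖t • tm (mt j y)‖ :=
          norm_add_le _ _
      _ = s * ‖tm (mt j x)‖ + t * ‖tm (mt j y)‖ := by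
          rw [norm_smul, norm_smul, Real.norm_of_nonneg hs, Real.norm_of_nonneg ht]
      _ ≤ s * r + t * r := add_le_add (mul_le_mul_of_nonneg_left (hx1 j) hs)
          (mul_le_mul_of_nonneg_left (hy1 j) ht)
      _ = r := by rw [← add_mul, hst, one_mul]
  · rw [map_add, map_smul, map_smul, map_add, map_smul, map_smul]
    calc ‖s • tm (vt x) + t • tm (vt y)‖ ≤ ‖s • tm (vt x)‖ + ‖t • tm (vt y)‖ :=
          norm_add_le _ _
      _ = s * ‖tm (vt x)‖ + t * ‖tm (vt y)‖ := by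
          rw [norm_smul, norm_smul, Real.norm_of_nonneg hs, Real.norm_of_nonneg ht]
      _ ≤ s * r + t * r := add_le_add (mul_le_mul_of_nonneg_left hx2 hs)
          (mul_le_mul_of_nonneg_left hy2 ht)
      _ = r := by rw [← add_mul, hst, one_mul]

theorem BB_RR {g : Matrix (Fin N) (Fin N) ℝ} (hg : g ∈ Matrix.orthogonalGroup (Fin N) ℝ) (r : ℝ)
    (x : V (Ix q m N)) (hx : x ∈ BB q m N r) : RR g x ∈ BB q m N r := by
  refine ⟨fun j => ?_, ?_⟩
  · rw [mt_RR]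
    refine (norm_right gᵀ ?_ _).trans ((norm_left g (orth2 hg) _).trans (hx.1 j))
    rw [Matrix.transpose_transpose]
    exact orth1 hg
  · rw [vt_RR]
    exact (norm_left g (orth2 hg) _).trans hx.2

theorem orth_tp {g : Matrix (Fin N) (Fin N) ℝ} (hg : g ∈ Matrix.orthogonalGroup (Fin N) ℝ) :
    gᵀ ∈ Matrix.orthogonalGroup (Fin N) ℝ := by
  rw [Matrix.mem_orthogonalGroup_iff]
  show gᵀ * gᵀᵀ = 1
  rw [Matrix.transpose_transpose]
  exact orth2 hg

theorem BB_inv (r : ℝ) : ∀ e ∈ GG q m N, ∀ x, e x ∈ BB q m N r ↔ x ∈ BB q m N r := by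
  rintro e ⟨g, hg, he⟩ x
  rw [he]
  refine ⟨fun h => ?_, fun h => BB_RR hg r x h⟩
  have h1 := BB_RR (orth_tp hg) r _ h
  rwa [RR_RR, orth2 hg, RR_one] at h1

theorem BB_norm (r : ℝ) (x : V (Ix q m N)) (hx : x ∈ BB q m N r) :
    ‖x‖ ^ 2 ≤ (q + 1) * (N * r ^ 2) := by
  have hr : 0 ≤ r := (norm_nonneg _).trans hx.2
  have h1 : ∀ j : Fin q, hs (mt j x) (mt j x) ≤ N * r ^ 2 := by
    intro j
    have h2 := hs_le_card (mt j x)
    rw [Fintype.card_fin] at h2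
    have h3 : ‖tm (mt j x)‖ ^ 2 ≤ r ^ 2 := pow_le_pow_left₀ (norm_nonneg _) (hx.1 j) 2
    exact h2.trans (mul_le_mul_of_nonneg_left h3 (Nat.cast_nonneg _))
  have h4 : hs (vt x) (vt x) ≤ N * r ^ 2 := by
    have h2 := hs_le_card (vt x)ᵀ
    rw [Fintype.card_fin, hs_tp] at h2
    have h3 : ‖tm (vt x)ᵀ‖ ^ 2 ≤ r ^ 2 :=
      pow_le_pow_left₀ (norm_nonneg _) ((norm_tp _).trans hx.2) 2
    exact h2.trans (mul_le_mul_of_nonneg_left h3 (Nat.cast_nonneg _))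
  rw [norm_mv]
  have h5 : ∑ j : Fin q, hs (mt j x) (mt j x) ≤ q * (N * r ^ 2) := by
    refine (Finset.sum_le_sum fun j _ => h1 j).trans ?_
    simp
  linarith

theorem BB_L (r : ℝ) (x : V (Ix q m N)) (hx : x ∈ BB q m N r) (w : V (Ix q m N)) :
    ∑ k : KI N, ⟪w, DR (Km ℝ k) x⟫_ℝ ^ 2 ≤ 4 * r ^ 2 * (q + 1) * ‖w‖ ^ 2 := by
  obtain ⟨T, hT⟩ : ∃ T : Option (Fin q) → Matrix (Fin N) (Fin N) ℝ, T = fun o => o.elim
      (vt w * (vt x)ᵀ) fun j => mt j w * (mt j x)ᵀ - (mt j x)ᵀ * mt j w := ⟨_, rfl⟩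
  have hTn : T none = vt w * (vt x)ᵀ := by rw [hT]; rfl
  have hTs : ∀ j, T (some j) = mt j w * (mt j x)ᵀ - (mt j x)ᵀ * mt j w := fun j => by rw [hT]; rfl
  have h1 : ∀ k : KI N, ⟪w, DR (Km ℝ k) x⟫_ℝ = hs (Km ℝ k) (∑ o, T o) := by
    intro k
    rw [inner_mv, hs_sum_right, Fintype.sum_option, add_comm, hTn]
    congr 1
    · rw [vt_DR, hs_comm, hs_mul_right]
    · refine Finset.sum_congr rfl fun j _ => ?_
      rw [mt_DR, hTs, hs_sub_right, hs_sub_right, hs_comm (mt j w) (Km ℝ k * mt j x),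
        hs_mul_right, hs_comm (mt j w) (mt j x * Km ℝ k), hs_mul_left]
  simp only [h1]
  refine (parseval_le _).trans ((hs_sum_le T).trans ?_)
  rw [Fintype.card_option, Fintype.card_fin, Fintype.sum_option, hTn]
  have hr : 0 ≤ r := (norm_nonneg _).trans hx.2
  have h2 : hs (vt w * (vt x)ᵀ) (vt w * (vt x)ᵀ) ≤ r ^ 2 * hs (vt w) (vt w) := by
    have e1 : hs (vt w * (vt x)ᵀ) (vt w * (vt x)ᵀ) = hs (vt x * (vt w)ᵀ) (vt x * (vt w)ᵀ) := by
      rw [← hs_tp, Matrix.transpose_mul, Matrix.transpose_transpose]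
    rw [e1]
    refine (hs_mul_le _ _).trans ?_
    rw [hs_tp]
    exact mul_le_mul_of_nonneg_right (pow_le_pow_left₀ (norm_nonneg _) hx.2 2) (hs_nonneg _)
  have h3 : ∀ j : Fin q, hs (T (some j)) (T (some j)) ≤ 4 * r ^ 2 * hs (mt j w) (mt j w) := by
    intro j
    rw [hTs]
    refine (hs_sub_le _ _).trans ?_
    have e1 : hs (mt j w * (mt j x)ᵀ) (mt j w * (mt j x)ᵀ) ≤ r ^ 2 * hs (mt j w) (mt j w) := by
      have e2 : hs (mt j w * (mt j x)ᵀ) (mt j w * (mt j x)ᵀ) =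
          hs (mt j x * (mt j w)ᵀ) (mt j x * (mt j w)ᵀ) := by
        rw [← hs_tp, Matrix.transpose_mul, Matrix.transpose_transpose]
      rw [e2]
      refine (hs_mul_le _ _).trans ?_
      rw [hs_tp]
      exact mul_le_mul_of_nonneg_right (pow_le_pow_left₀ (norm_nonneg _) (hx.1 j) 2) (hs_nonneg _)
    have e2 : hs ((mt j x)ᵀ * mt j w) ((mt j x)ᵀ * mt j w) ≤ r ^ 2 * hs (mt j w) (mt j w) := by
      refine (hs_mul_le _ _).trans ?_
      exact mul_le_mul_of_nonneg_right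
        (pow_le_pow_left₀ (norm_nonneg _) ((norm_tp _).trans (hx.1 j)) 2) (hs_nonneg _)
    linarith
  have h4 : ∑ j : Fin q, hs (T (some j)) (T (some j)) ≤
      4 * r ^ 2 * ∑ j, hs (mt j w) (mt j w) := by
    rw [Finset.mul_sum]
    exact Finset.sum_le_sum fun j _ => h3 j
  have h5 : hs (vt w * (vt x)ᵀ) (vt w * (vt x)ᵀ) + ∑ j : Fin q, hs (T (some j)) (T (some j)) ≤
      4 * r ^ 2 * ‖w‖ ^ 2 := by
    rw [norm_mv]
    have h6 : 0 ≤ r ^ 2 * hs (vt w) (vt w) := mul_nonneg (sq_nonneg r) (hs_nonneg _)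
    linarith
  push_cast
  calc ((q : ℝ) + 1) * (hs (vt w * (vt x)ᵀ) (vt w * (vt x)ᵀ) +
        ∑ j : Fin q, hs (T (some j)) (T (some j))) ≤ (q + 1) * (4 * r ^ 2 * ‖w‖ ^ 2) :=
        mul_le_mul_of_nonneg_left h5 (by positivity)
    _ = 4 * r ^ 2 * (q + 1) * ‖w‖ ^ 2 := by ring

end set

end Pool.Agent.TH591.TT
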