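import Pool.Agent.TH591.TT.Abs
import Pool.Agent.H888R2.KC.F5

/-!
# Tuples of matrices and vectors: the representation of the orthogonal group
-/

set_option autoImplicit false

namespace Pool.Agent.TH591.TT

open MeasureTheory Set Matrix
open scoped ENNReal InnerProductSpace

/-- coordinates of `q` matrices and `m` vectors of size `N` -/
abbrev Ix (q m N : ℕ) : Type := (Fin q × (Fin N × Fin N)) ⊕ (Fin m × Fin N)

section hs

variable {a b c : Type} [Fintype a] [Fintype b] [Fintype c]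

/-- Hilbert-Schmidt inner product of real matrices -/
def hs (A B : Matrix a b ℝ) : ℝ := ∑ i, ∑ j, A i j * B i j

theorem hs_tr (A B : Matrix a b ℝ) : hs A B = (Aᵀ * B).trace := by
  unfold hs
  rw [Matrix.trace, Finset.sum_comm]
  refine Finset.sum_congr rfl fun j _ => ?_
  rw [Matrix.diag_apply, Matrix.mul_apply]
  rfl

theorem hs_comm (A B : Matrix a b ℝ) : hs A B = hs B A := by
  unfold hs
  refine Finset.sum_congr rfl fun i _ => Finset.sum_congr rfl fun j _ => mul_comm _ _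

theorem hs_nonneg (A : Matrix a b ℝ) : 0 ≤ hs A A :=
  Finset.sum_nonneg fun i _ => Finset.sum_nonneg fun j _ => mul_self_nonneg _

theorem hs_add_right (A B C : Matrix a b ℝ) : hs A (B + C) = hs A B + hs A C := by
  simp only [hs, Matrix.add_apply, mul_add, Finset.sum_add_distrib]

theorem hs_sub_right (A B C : Matrix a b ℝ) : hs A (B - C) = hs A B - hs A C := by
  simp only [hs, Matrix.sub_apply, mul_sub, Finset.sum_sub_distrib]

theorem hs_sub_left (A B C : Matrix a b ℝ) : hs (A - B) C = hs A C - hs B C := by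
  simp only [hs, Matrix.sub_apply, sub_mul, Finset.sum_sub_distrib]

theorem hs_neg_right (A B : Matrix a b ℝ) : hs A (-B) = - hs A B := by
  simp only [hs, Matrix.neg_apply, mul_neg, Finset.sum_neg_distrib]

theorem hs_smul_right (A B : Matrix a b ℝ) (t : ℝ) : hs A (t • B) = t * hs A B := by
  simp only [hs, Matrix.smul_apply, smul_eq_mul, Finset.mul_sum]
  refine Finset.sum_congr rfl fun i _ => Finset.sum_congr rfl fun j _ => by ring

theorem hs_sum_right {ι : Type} (S : Finset ι) (A : Matrix a b ℝ) (B : ι → Matrix a b ℝ) :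
    hs A (∑ k ∈ S, B k) = ∑ k ∈ S, hs A (B k) := by
  classical
  induction S using Finset.induction_on with
  | empty => simp [hs]
  | insert j t hj ih => rw [Finset.sum_insert hj, Finset.sum_insert hj, hs_add_right, ih]

theorem hs_tp (A B : Matrix a b ℝ) : hs Aᵀ Bᵀ = hs A B := by
  unfold hs
  rw [Finset.sum_comm]
  rfl

/-- moving a left factor -/
theorem hs_mul_left (K : Matrix c a ℝ) (A : Matrix a b ℝ) (B : Matrix c b ℝ) :
    hs (K * A) B = hs A (Kᵀ * B) := by
  rw [hs_tr, hs_tr, Matrix.transpose_mul, Matrix.mul_assoc]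

/-- moving a right factor -/
theorem hs_mul_right (K : Matrix b c ℝ) (A : Matrix a b ℝ) (B : Matrix a c ℝ) :
    hs (A * K) B = hs A (B * Kᵀ) := by
  rw [hs_tr, hs_tr, Matrix.transpose_mul, Matrix.mul_assoc, Matrix.trace_mul_comm, Matrix.mul_assoc]

theorem hs_orth_left [DecidableEq a] (g : Matrix a a ℝ) (hg : gᵀ * g = 1) (A B : Matrix a b ℝ) :
    hs (g * A) (g * B) = hs A B := by
  rw [hs_mul_left, ← Matrix.mul_assoc, hg, Matrix.one_mul]

theorem hs_orth_right [DecidableEq b] (g : Matrix b b ℝ) (hg : g * gᵀ = 1) (A B : Matrix a b ℝ) :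
    hs (A * g) (B * g) = hs A B := by
  rw [hs_mul_right, Matrix.mul_assoc, hg, Matrix.mul_one]

end hs

section rep

variable {q m N : ℕ}

/-- the matrix number `j` -/
def mt (j : Fin q) : V (Ix q m N) →ₗ[ℝ] Matrix (Fin N) (Fin N) ℝ where
  toFun x := Matrix.of fun a b => x (Sum.inl (j, (a, b)))
  map_add' x y := by ext a b; simp
  map_smul' c x := by ext a b; simp

/-- the matrix with the vectors as columns -/
def vt : V (Ix q m N) →ₗ[ℝ] Matrix (Fin N) (Fin m) ℝ where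
  toFun x := Matrix.of fun a i => x (Sum.inr (i, a))
  map_add' x y := by ext a b; simp
  map_smul' c x := by ext a b; simp

theorem mt_apply (j : Fin q) (x : V (Ix q m N)) (a b : Fin N) :
    mt j x a b = x (Sum.inl (j, (a, b))) := rfl

theorem vt_apply (x : V (Ix q m N)) (a : Fin N) (i : Fin m) : vt x a i = x (Sum.inr (i, a)) := rfl

/-- the point with given matrices and vectors -/
def mk (X : Fin q → Matrix (Fin N) (Fin N) ℝ) (Y : Matrix (Fin N) (Fin m) ℝ) : V (Ix q m N) :=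
  WithLp.toLp 2 fun p => Sum.elim (fun p => X p.1 p.2.1 p.2.2) (fun p => Y p.2 p.1) p

theorem mt_mk (X : Fin q → Matrix (Fin N) (Fin N) ℝ) (Y : Matrix (Fin N) (Fin m) ℝ) (j : Fin q) :
    mt j (mk X Y) = X j := rfl

theorem vt_mk (X : Fin q → Matrix (Fin N) (Fin N) ℝ) (Y : Matrix (Fin N) (Fin m) ℝ) :
    vt (mk X Y) = Y := rfl

theorem ext_mv {x y : V (Ix q m N)} (h1 : ∀ j, mt j x = mt j y) (h2 : vt x = vt y) : x = y := by
  ext p
  rcases p with ⟨j, a, b⟩ | ⟨i, a⟩
  · exact congrFun (congrFun (h1 j) a) b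
  · exact congrFun (congrFun h2 a) i

theorem inner_mv (x y : V (Ix q m N)) :
    ⟪x, y⟫_ℝ = ∑ j, hs (mt j x) (mt j y) + hs (vt x) (vt y) := by
  rw [PiLp.inner_apply, Fintype.sum_sum_type]
  have h1 : ∀ p : Ix q m N, ⟪x p, y p⟫_ℝ = x p * y p := fun p => by
    simp [mul_comm]
  simp only [h1]
  congr 1
  · rw [Fintype.sum_prod_type]
    refine Finset.sum_congr rfl fun j _ => ?_
    rw [Fintype.sum_prod_type]
    rfl
  · rw [Fintype.sum_prod_type, Finset.sum_comm]
    rfl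

theorem norm_mv (x : V (Ix q m N)) :
    ‖x‖ ^ 2 = ∑ j, hs (mt j x) (mt j x) + hs (vt x) (vt x) := by
  rw [← real_inner_self_eq_norm_sq, inner_mv]

/-- the action of a matrix -/
def RR (g : Matrix (Fin N) (Fin N) ℝ) : V (Ix q m N) →ₗ[ℝ] V (Ix q m N) where
  toFun x := mk (fun j => g * mt j x * gᵀ) (g * vt x)
  map_add' x y := by
    refine ext_mv (fun j => ?_) ?_
    · rw [mt_mk, map_add, map_add, mt_mk, mt_mk, Matrix.mul_add, Matrix.add_mul]
    · rw [vt_mk, map_add, map_add, vt_mk, vt_mk, Matrix.mul_add]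
  map_smul' c x := by
    refine ext_mv (fun j => ?_) ?_
    · rw [mt_mk, map_smul, RingHom.id_apply, map_smul, mt_mk, Matrix.mul_smul, Matrix.smul_mul]
    · rw [vt_mk, map_smul, RingHom.id_apply, map_smul, vt_mk, Matrix.mul_smul]

/-- the infinitesimal action -/
def DR (K : Matrix (Fin N) (Fin N) ℝ) : V (Ix q m N) →ₗ[ℝ] V (Ix q m N) where
  toFun x := mk (fun j => K * mt j x - mt j x * K) (K * vt x)
  map_add' x y := by
    refine ext_mv (fun j => ?_) ?_
    · rw [mt_mk, map_add, map_add, mt_mk, mt_mk, Matrix.mul_add, Matrix.add_mul]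
      abel
    · rw [vt_mk, map_add, map_add, vt_mk, vt_mk, Matrix.mul_add]
  map_smul' c x := by
    refine ext_mv (fun j => ?_) ?_
    · rw [mt_mk, map_smul, RingHom.id_apply, map_smul, mt_mk, Matrix.mul_smul, Matrix.smul_mul,
        smul_sub]
    · rw [vt_mk, map_smul, RingHom.id_apply, map_smul, vt_mk, Matrix.mul_smul]

theorem mt_RR (g : Matrix (Fin N) (Fin N) ℝ) (x : V (Ix q m N)) (j : Fin q) :
    mt j (RR g x) = g * mt j x * gᵀ := rfl

theorem vt_RR (g : Matrix (Fin N) (Fin N) ℝ) (x : V (Ix q m N)) : vt (RR g x) = g * vt x := rfl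

theorem mt_DR (K : Matrix (Fin N) (Fin N) ℝ) (x : V (Ix q m N)) (j : Fin q) :
    mt j (DR K x) = K * mt j x - mt j x * K := rfl

theorem vt_DR (K : Matrix (Fin N) (Fin N) ℝ) (x : V (Ix q m N)) : vt (DR K x) = K * vt x := rfl

theorem RR_RR (g h : Matrix (Fin N) (Fin N) ℝ) (x : V (Ix q m N)) :
    RR g (RR h x) = RR (g * h) x := by
  refine ext_mv (fun j => ?_) ?_
  · rw [mt_RR, mt_RR, mt_RR, Matrix.transpose_mul]
    simp only [Matrix.mul_assoc]
  · rw [vt_RR, vt_RR, vt_RR, Matrix.mul_assoc]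

theorem RR_one (x : V (Ix q m N)) : RR (1 : Matrix (Fin N) (Fin N) ℝ) x = x := by
  refine ext_mv (fun j => ?_) ?_
  · rw [mt_RR, Matrix.transpose_one, Matrix.one_mul, Matrix.mul_one]
  · rw [vt_RR, Matrix.one_mul]

theorem orth1 {g : Matrix (Fin N) (Fin N) ℝ} (hg : g ∈ Matrix.orthogonalGroup (Fin N) ℝ) :
    g * gᵀ = 1 := (Matrix.mem_orthogonalGroup_iff (Fin N) ℝ).1 hg

theorem orth2 {g : Matrix (Fin N) (Fin N) ℝ} (hg : g ∈ Matrix.orthogonalGroup (Fin N) ℝ) :
    gᵀ * g = 1 := (Matrix.mem_orthogonalGroup_iff' (Fin N) ℝ).1 hg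

theorem norm_RR {g : Matrix (Fin N) (Fin N) ℝ} (hg : g ∈ Matrix.orthogonalGroup (Fin N) ℝ)
    (x : V (Ix q m N)) : ‖RR g x‖ = ‖x‖ := by
  have h1 : ‖RR g x‖ ^ 2 = ‖x‖ ^ 2 := by
    rw [norm_mv, norm_mv]
    congr 1
    · refine Finset.sum_congr rfl fun j _ => ?_
      rw [mt_RR, hs_orth_right gᵀ (by rw [Matrix.transpose_transpose]; exact orth2 hg),
        hs_orth_left g (orth2 hg)]
    · rw [vt_RR, hs_orth_left g (orth2 hg)]
  exact (sq_eq_sq₀ (norm_nonneg _) (norm_nonneg _)).1 h1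

/-- the isometry of an orthogonal matrix -/
noncomputable def iso (g : Matrix (Fin N) (Fin N) ℝ) (hg : g ∈ Matrix.orthogonalGroup (Fin N) ℝ) :
    V (Ix q m N) ≃ₗᵢ[ℝ] V (Ix q m N) :=
  { RR g with
    invFun := RR gᵀ
    left_inv := fun x => by
      show RR gᵀ (RR g x) = x
      rw [RR_RR, orth2 hg, RR_one]
    right_inv := fun x => by
      show RR g (RR gᵀ x) = x
      rw [RR_RR, orth1 hg, RR_one]
    norm_map' := fun x => norm_RR hg x }

theorem iso_apply (g : Matrix (Fin N) (Fin N) ℝ) (hg : g ∈ Matrix.orthogonalGroup (Fin N) ℝ)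
    (x : V (Ix q m N)) : iso g hg x = RR g x := rfl

/-- the group -/
def GG (q m N : ℕ) : Set (V (Ix q m N) ≃ₗᵢ[ℝ] V (Ix q m N)) :=
  {e | ∃ g ∈ Matrix.orthogonalGroup (Fin N) ℝ, ∀ x, e x = RR g x}

theorem iso_mem (g : Matrix (Fin N) (Fin N) ℝ) (hg : g ∈ Matrix.orthogonalGroup (Fin N) ℝ) :
    iso g hg ∈ GG q m N := ⟨g, hg, fun _ => rfl⟩

theorem DR_skew {K : Matrix (Fin N) (Fin N) ℝ} (hK : Kᵀ = -K) (x y : V (Ix q m N)) :
    ⟪DR K x, y⟫_ℝ = - ⟪x, DR K y⟫_ℝ := by
  rw [inner_mv, inner_mv, neg_add, ← Finset.sum_neg_distrib]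
  congr 1
  · refine Finset.sum_congr rfl fun j _ => ?_
    rw [mt_DR, mt_DR, hs_sub_left, hs_sub_right, hs_mul_left, hs_mul_right, hK, Matrix.neg_mul,
      Matrix.mul_neg, hs_neg_right, hs_neg_right]
    ring
  · rw [vt_DR, vt_DR, hs_mul_left, hK, Matrix.neg_mul, hs_neg_right]

theorem DR_add (K L : Matrix (Fin N) (Fin N) ℝ) (x : V (Ix q m N)) :
    DR (K + L) x = DR K x + DR L x := by
  refine ext_mv (fun j => ?_) ?_
  · rw [map_add, mt_DR, mt_DR, mt_DR, Matrix.add_mul, Matrix.mul_add]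
    abel
  · rw [map_add, vt_DR, vt_DR, vt_DR, Matrix.add_mul]

theorem DR_smul (c : ℝ) (K : Matrix (Fin N) (Fin N) ℝ) (x : V (Ix q m N)) :
    DR (c • K) x = c • DR K x := by
  refine ext_mv (fun j => ?_) ?_
  · rw [map_smul, mt_DR, mt_DR, Matrix.smul_mul, Matrix.mul_smul, smul_sub]
  · rw [map_smul, vt_DR, vt_DR, Matrix.smul_mul]

theorem DR_zero (x : V (Ix q m N)) : DR (0 : Matrix (Fin N) (Fin N) ℝ) x = 0 := by
  have := DR_smul 0 (0 : Matrix (Fin N) (Fin N) ℝ) x
  rwa [zero_smul, zero_smul] at this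

theorem DR_sum {ι : Type} (S : Finset ι) (c : ι → ℝ) (K : ι → Matrix (Fin N) (Fin N) ℝ)
    (x : V (Ix q m N)) : DR (∑ k ∈ S, c k • K k) x = ∑ k ∈ S, c k • DR (K k) x := by
  classical
  induction S using Finset.induction_on with
  | empty => simp [DR_zero]
  | insert j t hj ih => rw [Finset.sum_insert hj, Finset.sum_insert hj, DR_add, ih, DR_smul]

theorem DR_comm (K L : Matrix (Fin N) (Fin N) ℝ) (x : V (Ix q m N)) :
    DR K (DR L x) - DR L (DR K x) = DR (K * L - L * K) x := by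
  refine ext_mv (fun j => ?_) ?_
  · rw [map_sub, mt_DR, mt_DR, mt_DR, mt_DR, mt_DR]
    simp only [Matrix.mul_sub, Matrix.sub_mul, Matrix.mul_assoc]
    abel
  · rw [map_sub, vt_DR, vt_DR, vt_DR, vt_DR, vt_DR]
    simp only [Matrix.sub_mul, Matrix.mul_assoc]

end rep

end Pool.Agent.TH591.TT
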