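import Pool.Agent.TH591.TT.Tail1
import Pool.Agent.H888R2.KC.T2

/-!
# The special orthogonal group: transitivity
-/

set_option autoImplicit false

namespace Pool.Agent.TH591.TT

open MeasureTheory Set Matrix
open scoped ENNReal InnerProductSpace
open Pool.Agent.H888R2.KC.T2x (Rm Rm_unitary entry)

variable {N : ℕ}

/-- `g ∈ SO(N)` -/
def IsSO (g : Matrix (Fin N) (Fin N) ℝ) : Prop := g ∈ Matrix.orthogonalGroup (Fin N) ℝ ∧ g.det = 1

theorem IsSO.mul {g h : Matrix (Fin N) (Fin N) ℝ} (hg : IsSO g) (hh : IsSO h) : IsSO (g * h) :=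
  ⟨mul_mem hg.1 hh.1, by rw [Matrix.det_mul, hg.2, hh.2, one_mul]⟩

theorem IsSO.tp {g : Matrix (Fin N) (Fin N) ℝ} (hg : IsSO g) : IsSO gᵀ :=
  ⟨orth_tp hg.1, by rw [Matrix.det_transpose, hg.2]⟩

theorem IsSO.one : IsSO (1 : Matrix (Fin N) (Fin N) ℝ) := ⟨one_mem _, Matrix.det_one⟩

theorem det_or {g : Matrix (Fin N) (Fin N) ℝ} (hg : g ∈ Matrix.orthogonalGroup (Fin N) ℝ) :
    g.det = 1 ∨ g.det = -1 := by
  have h1 := congrArg Matrix.det (orth1 hg)
  rw [Matrix.det_mul, Matrix.det_transpose, Matrix.det_one] at h1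
  exact mul_self_eq_one_iff.1 h1

/-- a reflection which fixes two given vectors -/
theorem refl (hN : 3 ≤ N) (a b : EuclideanSpace ℝ (Fin N)) :
    ∃ h : Matrix (Fin N) (Fin N) ℝ, h ∈ Matrix.orthogonalGroup (Fin N) ℝ ∧ h.det = -1 ∧
      tm h a = a ∧ tm h b = b ∧ hᵀ = h := by
  obtain ⟨p, hp1, hpa, hpb⟩ : ∃ p : EuclideanSpace ℝ (Fin N), ‖p‖ = 1 ∧ ⟪p, a⟫_ℝ = 0 ∧
      ⟪p, b⟫_ℝ = 0 := by
    have h1 : Module.finrank ℝ (Submodule.span ℝ ({a, b} : Set (EuclideanSpace ℝ (Fin N)))) ≤ 2 := by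
      have h2 := finrank_span_finset_le_card (R := ℝ) ({a, b} : Finset (EuclideanSpace ℝ (Fin N)))
      have h3 : ({a, b} : Finset (EuclideanSpace ℝ (Fin N))).card ≤ 2 := Finset.card_le_two
      simp only [Finset.coe_insert, Finset.coe_singleton] at h2
      unfold Set.finrank at h2
      omega
    have h4 := (Submodule.span ℝ ({a, b} : Set (EuclideanSpace ℝ (Fin N)))).finrank_add_finrank_orthogonal
    rw [finrank_euclideanSpace, Fintype.card_fin] at h4
    have h5 : 0 < Module.finrank ℝ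
        (Submodule.span ℝ ({a, b} : Set (EuclideanSpace ℝ (Fin N))))ᗮ := by omega
    have := Module.finrank_pos_iff.1 h5
    obtain ⟨⟨p, hp⟩, hp0⟩ := exists_ne
      (0 : ↥(Submodule.span ℝ ({a, b} : Set (EuclideanSpace ℝ (Fin N))))ᗮ)
    have hp0' : p ≠ 0 := fun h => hp0 (Subtype.ext h)
    have hn : 0 < ‖p‖ := norm_pos_iff.2 hp0'
    have ha : ⟪a, p⟫_ℝ = 0 := hp a (Submodule.subset_span (by simp))
    have hb : ⟪b, p⟫_ℝ = 0 := hp b (Submodule.subset_span (by simp))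
    refine ⟨‖p‖⁻¹ • p, ?_, ?_, ?_⟩
    · rw [norm_smul, norm_inv, norm_norm, inv_mul_cancel₀ hn.ne']
    · rw [real_inner_smul_left, real_inner_comm, ha, mul_zero]
    · rw [real_inner_smul_left, real_inner_comm, hb, mul_zero]
  obtain ⟨v, hv⟩ : ∃ v : Fin N → ℝ, v = p.ofLp := ⟨_, rfl⟩
  have hdot : ∀ w : EuclideanSpace ℝ (Fin N), v ⬝ᵥ w.ofLp = ⟪p, w⟫_ℝ := by
    intro w
    rw [PiLp.inner_apply, hv, dotProduct]
    refine Finset.sum_congr rfl fun i _ => ?_
    simp [mul_comm]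
  have hvv : v ⬝ᵥ v = 1 := by
    have := hdot p
    rw [real_inner_self_eq_norm_sq, hp1] at this
    rw [hv] at this ⊢
    linarith
  obtain ⟨h, hh⟩ : ∃ h : Matrix (Fin N) (Fin N) ℝ, h = 1 - (2 : ℝ) • Matrix.vecMulVec v v :=
    ⟨_, rfl⟩
  have hsym : hᵀ = h := by
    rw [hh]
    ext i j
    simp only [Matrix.transpose_apply, Matrix.sub_apply, Matrix.smul_apply, Matrix.vecMulVec_apply,
      smul_eq_mul, Matrix.one_apply, eq_comm (a := j) (b := i)]
    ring
  have hvm : Matrix.vecMulVec v v * Matrix.vecMulVec v v = Matrix.vecMulVec v v := by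
    rw [Matrix.vecMulVec_mul_vecMulVec, hvv]
    ext i j
    simp [Matrix.vecMulVec_apply]
  have hsq : h * h = 1 := by
    rw [hh, Matrix.sub_mul, Matrix.mul_sub, Matrix.mul_sub]
    simp only [Matrix.one_mul, Matrix.mul_one, Matrix.smul_mul, Matrix.mul_smul, hvm]
    ext i j
    simp only [Matrix.sub_apply, Matrix.smul_apply, smul_eq_mul]
    ring
  have hfix : ∀ w : EuclideanSpace ℝ (Fin N), ⟪p, w⟫_ℝ = 0 → tm h w = w := by
    intro w hw
    rw [tm_apply, hh, Matrix.sub_mulVec, Matrix.one_mulVec, Matrix.smul_mulVec,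
      Matrix.vecMulVec_mulVec, hdot, hw]
    ext i
    simp
  refine ⟨h, ?_, ?_, hfix a hpa, hfix b hpb, hsym⟩
  · rw [Matrix.mem_orthogonalGroup_iff]
    show h * hᵀ = 1
    rw [hsym, hsq]
  · have e1 : h = 1 + Matrix.replicateCol Unit ((-2 : ℝ) • v) * Matrix.replicateRow Unit v := by
      rw [hh]
      ext i j
      simp only [Matrix.sub_apply, Matrix.smul_apply, Matrix.vecMulVec_apply, smul_eq_mul,
        Matrix.add_apply, Matrix.mul_apply, Matrix.replicateCol_apply, Matrix.replicateRow_apply,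
        Pi.smul_apply, Finset.univ_unique, Finset.sum_singleton]
      ring
    rw [e1, Matrix.det_one_add_replicateCol_mul_replicateRow, dotProduct_smul, hvv]
    norm_num

theorem trans_fullS (hN : 3 ≤ N) (y z : EuclideanSpace ℝ (Fin N)) (h : ‖y‖ = ‖z‖) :
    ∃ g, IsSO g ∧ tm g y = z := by
  obtain ⟨g, hg, hgy⟩ := trans_full y z h
  rcases det_or hg with hd | hd
  · exact ⟨g, ⟨hg, hd⟩, hgy⟩
  · obtain ⟨h, hh, hd', hz, -, -⟩ := refl hN z z
    refine ⟨h * g, ⟨mul_mem hh hg, by rw [Matrix.det_mul, hd, hd']; norm_num⟩, ?_⟩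
    rw [tm_mul, hgy, hz]

theorem row_of_fix (h : Matrix (Fin N) (Fin N) ℝ) (hs : hᵀ = h) (j : Fin N)
    (hj : tm h (EuclideanSpace.single j 1) = EuclideanSpace.single j 1) (b : Fin N) :
    h j b = if b = j then 1 else 0 := by
  have h1 : ∀ b, h b j = if b = j then 1 else 0 := by
    intro b
    have h2 := congrArg (fun w : EuclideanSpace ℝ (Fin N) => w b) hj
    simp only [tm_apply] at h2
    have h3 : (h *ᵥ (EuclideanSpace.single j (1 : ℝ)).ofLp) b = h b j := by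
      rw [Matrix.mulVec, dotProduct, Finset.sum_eq_single j]
      · simp
      · intro c _ hc
        simp [hc]
      · intro h
        exact absurd (Finset.mem_univ j) h
    rw [h3] at h2
    rw [h2, EuclideanSpace.single_apply]
  have h2 : h j b = h b j := by
    conv_lhs => rw [← hs]
    rfl
  rw [h2, h1]

theorem row_mul (h g : Matrix (Fin N) (Fin N) ℝ) (j : Fin N)
    (hj : ∀ b, h j b = if b = j then 1 else 0) (b : Fin N) : (h * g) j b = g j b := by
  rw [Matrix.mul_apply, Finset.sum_eq_single j]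
  · rw [hj]; simp
  · intro c _ hc
    rw [hj, if_neg hc]; simp
  · simp

theorem trans_offS (hN : 3 ≤ N) (j : Fin N) (p q : Fin N → ℝ) (hp : p j = 0) (hq : q j = 0)
    (hpq : ∑ k, ‖p k‖ ^ 2 = ∑ k, ‖q k‖ ^ 2) :
    ∃ g, IsSO g ∧ g *ᵥ p = q ∧ ∀ b, g j b = if b = j then 1 else 0 := by
  obtain ⟨g, hg, hgp, hgj⟩ := Pool.Agent.H888R2.KC.T1x.trans_off j p q hp hq hpq
  rcases det_or hg with hd | hd
  · exact ⟨g, ⟨hg, hd⟩, hgp, hgj⟩
  · obtain ⟨h, hh, hd', hz, hj, hs⟩ := refl hN (WithLp.toLp 2 q) (EuclideanSpace.single j 1)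
    refine ⟨h * g, ⟨mul_mem hh hg, by rw [Matrix.det_mul, hd, hd']; norm_num⟩, ?_, ?_⟩
    · rw [← Matrix.mulVec_mulVec, hgp]
      have := congrArg WithLp.ofLp hz
      exact this
    · intro b
      rw [row_mul h g j (row_of_fix h hs j hj), hgj]

theorem RmS (hN : 3 ≤ N) {i j : Fin N} (hij : i ≠ j) :
    ∃ g : Matrix (Fin N) (Fin N) ℝ, IsSO g ∧ ∀ X : Matrix (Fin N) (Fin N) ℝ,
      (g * X * gᵀ) i j = 1 / 2 * (X i j - X j i - (X i i - X j j)) ∧
      (g * X * gᵀ) j i = 1 / 2 * (X j i - X i j - (X i i - X j j)) := by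
  have hU : Rm ℝ i j ∈ Matrix.orthogonalGroup (Fin N) ℝ := Rm_unitary (𝕜 := ℝ) hij
  have key : ∀ X : Matrix (Fin N) (Fin N) ℝ,
      (Rm ℝ i j * X * (Rm ℝ i j)ᵀ) i j = 1 / 2 * (X i j - X j i - (X i i - X j j)) ∧
      (Rm ℝ i j * X * (Rm ℝ i j)ᵀ) j i = 1 / 2 * (X j i - X i j - (X i i - X j j)) := by
    intro X
    constructor
    · have := entry (𝕜 := ℝ) hij X
      rw [Matrix.conjTranspose_eq_transpose_of_trivial] at this
      exact this
    · have := entry (𝕜 := ℝ) hij Xᵀ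
      rw [Matrix.conjTranspose_eq_transpose_of_trivial] at this
      have e3 : Rm ℝ i j * Xᵀ * (Rm ℝ i j)ᵀ = (Rm ℝ i j * X * (Rm ℝ i j)ᵀ)ᵀ := by
        rw [Matrix.transpose_mul, Matrix.transpose_mul, Matrix.transpose_transpose,
          Matrix.mul_assoc]
      rw [e3] at this
      exact this
  rcases det_or hU with hd | hd
  · exact ⟨_, ⟨hU, hd⟩, key⟩
  · obtain ⟨h, hh, hd', hi, hj, hs⟩ := refl hN (EuclideanSpace.single i 1)
      (EuclideanSpace.single j 1)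
    refine ⟨h * Rm ℝ i j, ⟨mul_mem hh hU, by rw [Matrix.det_mul, hd, hd']; norm_num⟩, fun X => ?_⟩
    have e1 : h * Rm ℝ i j * X * (h * Rm ℝ i j)ᵀ = h * (Rm ℝ i j * X * (Rm ℝ i j)ᵀ) * hᵀ := by
      rw [Matrix.transpose_mul]
      simp only [Matrix.mul_assoc]
    have e2 : ∀ a b, (∀ c, h a c = if c = a then 1 else 0) → (∀ c, h b c = if c = b then 1 else 0) →
        ∀ Z : Matrix (Fin N) (Fin N) ℝ, (h * Z * hᵀ) a b = Z a b := by
      intro a b ha hb Z
      rw [Matrix.mul_assoc, row_mul h _ a ha]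
      have : (Z * hᵀ) a b = (h * Zᵀ) b a := by
        have h3 : h * Zᵀ = (Z * hᵀ)ᵀ := by rw [Matrix.transpose_mul, Matrix.transpose_transpose]
        rw [h3]
        rfl
      rw [this, row_mul h _ b hb]
      rfl
    have hi' := row_of_fix h hs i hi
    have hj' := row_of_fix h hs j hj
    rw [e1, e2 i j hi' hj', e2 j i hj' hi']
    exact key X

end Pool.Agent.TH591.TT
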