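import Pool.Agent.TH591.TT.SO

/-!
# Invariant subspaces of the tuples of matrices and vectors
-/

set_option autoImplicit false

namespace Pool.Agent.TH591.TT

open MeasureTheory Set Matrix
open scoped ENNReal InnerProductSpace
open Pool.Agent.H888R2.KC (KI Km ip Km_skew Km_complete Km_parseval)

section sub

variable {κ : Type} [Fintype κ] {q m N : ℕ} {ι : V κ →ₗᵢ[ℝ] V (Ix q m N)}

/-- the range of `ι` is invariant under `SO(N)` -/
def InvR (ι : V κ →ₗᵢ[ℝ] V (Ix q m N)) : Prop :=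
  ∀ g : Matrix (Fin N) (Fin N) ℝ, IsSO g → ∀ x, ∃ y, ι y = RR g (ι x)

/-- the left inverse of `ι` -/
noncomputable def pj (ι : V κ →ₗᵢ[ℝ] V (Ix q m N)) : V (Ix q m N) →L[ℝ] V κ :=
  ContinuousLinearMap.adjoint ι.toContinuousLinearMap

theorem pj_inner (x : V (Ix q m N)) (y : V κ) : ⟪pj ι x, y⟫_ℝ = ⟪x, ι y⟫_ℝ :=
  ContinuousLinearMap.adjoint_inner_left _ _ _

theorem pj_ι (x : V κ) : pj ι (ι x) = x := by
  refine ext_inner_right ℝ fun y => ?_
  rw [pj_inner, LinearIsometry.inner_map_map]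

theorem pj_norm (x : V (Ix q m N)) : ‖pj ι x‖ ≤ ‖x‖ := by
  have h1 : ‖pj ι x‖ ^ 2 ≤ ‖x‖ * ‖pj ι x‖ := by
    rw [← real_inner_self_eq_norm_sq, pj_inner]
    refine (real_inner_le_norm _ _).trans ?_
    rw [LinearIsometry.norm_map]
  rcases (norm_nonneg (pj ι x)).eq_or_lt with h0 | h0
  · rw [← h0]; exact norm_nonneg _
  · nlinarith

/-- the action on the subspace -/
noncomputable def aS (ι : V κ →ₗᵢ[ℝ] V (Ix q m N)) (g : Matrix (Fin N) (Fin N) ℝ) :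
    V κ →ₗ[ℝ] V κ := (pj ι).toLinearMap ∘ₗ RR g ∘ₗ ι.toLinearMap

theorem aS_apply (g : Matrix (Fin N) (Fin N) ℝ) (x : V κ) : aS ι g x = pj ι (RR g (ι x)) := rfl

theorem ι_aS (hι : InvR ι) {g : Matrix (Fin N) (Fin N) ℝ} (hg : IsSO g) (x : V κ) :
    ι (aS ι g x) = RR g (ι x) := by
  obtain ⟨y, hy⟩ := hι g hg x
  rw [aS_apply, ← hy, pj_ι]

/-- the isometry of `g` -/
noncomputable def isoS (hι : InvR ι) (g : Matrix (Fin N) (Fin N) ℝ) (hg : IsSO g) :
    V κ ≃ₗᵢ[ℝ] V κ :=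
  { aS ι g with
    invFun := aS ι gᵀ
    left_inv := fun x => by
      show aS ι gᵀ (aS ι g x) = x
      apply ι.injective
      rw [ι_aS hι hg.tp, ι_aS hι hg, RR_RR, orth2 hg.1, RR_one]
    right_inv := fun x => by
      show aS ι g (aS ι gᵀ x) = x
      apply ι.injective
      rw [ι_aS hι hg, ι_aS hι hg.tp, RR_RR, orth1 hg.1, RR_one]
    norm_map' := fun x => by
      show ‖aS ι g x‖ = ‖x‖
      rw [← ι.norm_map (aS ι g x), ι_aS hι hg, norm_RR hg.1, ι.norm_map] }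

theorem isoS_apply (hι : InvR ι) (g : Matrix (Fin N) (Fin N) ℝ) (hg : IsSO g) (x : V κ) :
    ι (isoS hι g hg x) = RR g (ι x) := ι_aS hι hg x

/-- the group of the subspace -/
def GS (ι : V κ →ₗᵢ[ℝ] V (Ix q m N)) : Set (V κ ≃ₗᵢ[ℝ] V κ) :=
  {e | ∃ g : Matrix (Fin N) (Fin N) ℝ, IsSO g ∧ ∀ x, ι (e x) = RR g (ι x)}

theorem isoS_mem (hι : InvR ι) (g : Matrix (Fin N) (Fin N) ℝ) (hg : IsSO g) :
    isoS hι g hg ∈ GS ι := ⟨g, hg, isoS_apply hι g hg⟩

/-- one parameter groups in `SO(N)` -/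
theorem exp_pathS (K : Matrix (Fin N) (Fin N) ℝ) (hK : Kᵀ = -K) :
    ∃ U : ℝ → Matrix (Fin N) (Fin N) ℝ, (∀ t, IsSO (U t)) ∧
      (∀ x : V (Ix q m N), RR (U 0) x = x) ∧
      (∀ s t, U (s + t) = U s * U t) ∧
      ∀ x : V (Ix q m N), HasDerivAt (fun t => RR (U t) x) (DR K x) 0 := by
  obtain ⟨U, hU, h0, hadd, hder⟩ := exp_path K hK
  refine ⟨U, fun t => ⟨hU t, ?_⟩, fun x => by rw [h0, RR_one], hadd, ?_⟩
  · have h1 : U t = U (t / 2) * U (t / 2) := by rw [← hadd]; congr 1; ring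
    rw [h1, Matrix.det_mul]
    rcases det_or (hU (t / 2)) with h | h <;> rw [h] <;> norm_num
  · intro x
    have h1 : HasDerivAt (fun t : ℝ => fun p : Ix q m N => (RR (U t) x) p)
        (fun p => (DR K x) p) 0 := by
      rw [hasDerivAt_pi]
      intro p
      rcases p with ⟨j, a, b⟩ | ⟨i, a⟩
      · have e1 := mul_der (fun t => U t) (fun _ => mt j x) K 0 hder
          (fun a b => hasDerivAt_const _ _)
        have e2 := mul_der (fun t => U t * mt j x) (fun t => (U t)ᵀ) (K * mt j x + U 0 * 0) Kᵀ e1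
          (fun a b => hder b a) a b
        have e3 : ((K * mt j x + U 0 * 0) * (U 0)ᵀ + U 0 * mt j x * Kᵀ) =
            mt j (DR K x) := by
          rw [h0, mt_DR, hK, Matrix.transpose_one, Matrix.mul_zero, add_zero, Matrix.mul_one,
            Matrix.one_mul, Matrix.mul_neg, sub_eq_add_neg]
        rw [e3] at e2
        exact e2
      · have e1 := mul_der (fun t => U t) (fun _ => vt x) K 0 hder
          (fun a b => hasDerivAt_const _ _) a i
        have e3 : (K * vt x + U 0 * (0 : Matrix (Fin N) (Fin m) ℝ)) = vt (DR K x) := by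
          rw [vt_DR, Matrix.mul_zero, add_zero]
        rw [e3] at e1
        exact e1
    exact ((PiLp.continuousLinearEquiv 2 ℝ
      (fun _ : Ix q m N => ℝ)).symm.hasFDerivAt).comp_hasDerivAt (0 : ℝ) h1

/-- the infinitesimal action on the subspace -/
noncomputable def DS (ι : V κ →ₗᵢ[ℝ] V (Ix q m N)) (K : Matrix (Fin N) (Fin N) ℝ) :
    V κ →ₗ[ℝ] V κ := (pj ι).toLinearMap ∘ₗ DR K ∘ₗ ι.toLinearMap

theorem DS_apply (K : Matrix (Fin N) (Fin N) ℝ) (x : V κ) : DS ι K x = pj ι (DR K (ι x)) := rfl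

theorem ι_DS (hι : InvR ι) (K : Matrix (Fin N) (Fin N) ℝ) (hK : Kᵀ = -K) (x : V κ) :
    ι (DS ι K x) = DR K (ι x) := by
  obtain ⟨U, hU, h0, hadd, hder⟩ := exp_pathS (q := q) (m := m) K hK
  have h1 := hder (ι x)
  have h2 : HasDerivAt (fun t => ι (pj ι (RR (U t) (ι x)))) (ι (pj ι (DR K (ι x)))) 0 :=
    ((ι.toContinuousLinearMap.comp (pj ι)).hasFDerivAt).comp_hasDerivAt (0 : ℝ) h1
  have h3 : (fun t => ι (pj ι (RR (U t) (ι x)))) = fun t => RR (U t) (ι x) := by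
    funext t
    exact ι_aS hι (hU t) x
  rw [h3] at h2
  exact h2.unique h1

/-- the fixed vectors -/
def FX (ι : V κ →ₗᵢ[ℝ] V (Ix q m N)) : Submodule ℝ (V κ) where
  carrier := {x | ∀ g : Matrix (Fin N) (Fin N) ℝ, IsSO g → RR g (ι x) = ι x}
  add_mem' := by
    intro x y hx hy g hg
    rw [map_add, map_add, hx g hg, hy g hg]
  zero_mem' := by
    intro g _
    rw [map_zero, map_zero]
  smul_mem' := by
    intro c x hx g hg
    rw [map_smul, map_smul, hx g hg]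

theorem FX_DR (x : V κ) (hx : x ∈ FX ι) (K : Matrix (Fin N) (Fin N) ℝ) (hK : Kᵀ = -K) :
    DR K (ι x) = 0 := by
  obtain ⟨U, hU, h0, hadd, hder⟩ := exp_pathS (q := q) (m := m) K hK
  have h1 := hder (ι x)
  have h3 : (fun t => RR (U t) (ι x)) = fun _ => ι x := by
    funext t
    exact hx (U t) (hU t)
  rw [h3] at h1
  exact h1.unique (hasDerivAt_const _ _)

/-- the orthonormal basis of the fixed vectors -/
noncomputable def eb (ι : V κ →ₗᵢ[ℝ] V (Ix q m N)) (j : Fin (Module.finrank ℝ (FX ι))) : V κ :=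
  (stdOrthonormalBasis ℝ (FX ι) j : V κ)

theorem eb_orth : Orthonormal ℝ (eb ι) := by
  have h := (stdOrthonormalBasis ℝ (FX ι)).orthonormal
  exact h.comp_linearIsometry (FX ι).subtypeₗᵢ

theorem eb_sum (w : V κ) : ∑ j, ⟪eb ι j, w⟫_ℝ ^ 2 = ‖(FX ι).orthogonalProjection w‖ ^ 2 := by
  have h := (stdOrthonormalBasis ℝ (FX ι)).sum_sq_norm_inner_right ((FX ι).orthogonalProjection w)
  rw [← h]
  refine Finset.sum_congr rfl fun j _ => ?_
  rw [Real.norm_eq_abs, sq_abs]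
  congr 1
  have h2 : ⟪stdOrthonormalBasis ℝ (FX ι) j, (FX ι).orthogonalProjection w⟫_ℝ =
      ⟪(stdOrthonormalBasis ℝ (FX ι) j : V κ), ((FX ι).orthogonalProjection w : V κ)⟫_ℝ := rfl
  rw [h2]
  have h3 : ⟪(stdOrthonormalBasis ℝ (FX ι) j : V κ), w - (FX ι).orthogonalProjection w⟫_ℝ = 0 :=
    Submodule.sub_starProjection_mem_orthogonal (K := FX ι) w _ (stdOrthonormalBasis ℝ (FX ι) j).2
  rw [inner_sub_right] at h3
  show ⟪(stdOrthonormalBasis ℝ (FX ι) j : V κ), w⟫_ℝ = _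
  linarith

/-- the vector of the invariant functional `⟪ee l, ι x⟫` -/
theorem pj_ee_mem (hN : 1 ≤ N) (hι : InvR ι) (l : Fin q) : pj ι (ee l) ∈ FX ι := by
  intro g hg
  rw [← ι_aS hι hg]
  congr 1
  refine ext_inner_right ℝ fun y => ?_
  have h1 : ⟪aS ι g (pj ι (ee l)), y⟫_ℝ = ⟪pj ι (ee l), aS ι gᵀ y⟫_ℝ := by
    have h2 := (isoS hι g hg).inner_map_map (pj ι (ee l)) (aS ι gᵀ y)
    have h3 : isoS hι g hg (aS ι gᵀ y) = y := (isoS hι g hg).apply_symm_apply y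
    rw [h3] at h2
    exact h2
  rw [h1, pj_inner, pj_inner, ι_aS hι hg.tp]
  have h4 := (iso (q := q) (m := m) gᵀ hg.tp.1).inner_map_map (ee l) (ι y)
  rw [iso_apply, iso_apply, ee_fix gᵀ hg.tp.1] at h4
  exact h4

theorem casS (hN : 2 ≤ N) (hι : InvR ι) (w : V κ) :
    ((N : ℝ) - 2) / 2 * (‖w‖ ^ 2 - ∑ j, ⟪eb ι j, w⟫_ℝ ^ 2) ≤ ∑ k, ‖DS ι (Km ℝ k) w‖ ^ 2 := by
  rw [eb_sum]
  obtain ⟨p, hp⟩ : ∃ p : V κ, p = ((FX ι).orthogonalProjection w : V κ) := ⟨_, rfl⟩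
  obtain ⟨w', hw'⟩ : ∃ w' : V κ, w' = w - p := ⟨_, rfl⟩
  have hpF : p ∈ FX ι := by rw [hp]; exact ((FX ι).orthogonalProjection w).2
  have hw'F : ∀ f ∈ FX ι, ⟪f, w'⟫_ℝ = 0 := by
    rw [hw', hp]
    exact fun f hf => Submodule.sub_starProjection_mem_orthogonal (K := FX ι) w f hf
  have hpn : ‖(FX ι).orthogonalProjection w‖ = ‖p‖ := by rw [hp]; rfl
  have hww : w = p + w' := by rw [hw']; abel
  have hn : ‖w‖ ^ 2 = ‖p‖ ^ 2 + ‖w'‖ ^ 2 := by
    rw [hww, norm_add_sq_real, hw'F p hpF]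
    ring
  have hD : ∀ k, ‖DS ι (Km ℝ k) w‖ ^ 2 = ‖DR (Km ℝ k) (ι w')‖ ^ 2 := by
    intro k
    rw [← ι.norm_map, ι_DS hι _ (Km_tp k)]
    congr 2
    rw [hww, map_add, map_add, FX_DR p hpF _ (Km_tp k), zero_add]
  rw [Finset.sum_congr rfl fun k _ => hD k, hpn, hn]
  have h1 := casimir hN (ι w')
  have h2 : ∑ l, ⟪ee l, ι w'⟫_ℝ ^ 2 = 0 := by
    refine Finset.sum_eq_zero fun l _ => ?_
    rw [← pj_inner, hw'F _ (pj_ee_mem (by omega) hι l)]
    norm_num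
  rw [h2, sub_zero, ι.norm_map] at h1
  have e : ‖p‖ ^ 2 + ‖w'‖ ^ 2 - ‖p‖ ^ 2 = ‖w'‖ ^ 2 := by ring
  rw [e]
  exact h1

theorem FX_le (hN : 3 ≤ N) : Module.finrank ℝ (FX ι) ≤ q := by
  have hN3 : (3 : ℝ) ≤ N := by exact_mod_cast hN
  let F : FX ι →ₗ[ℝ] (Fin q → ℝ) :=
    { toFun := fun x l => ⟪ee l, ι (x : V κ)⟫_ℝ
      map_add' := fun x y => by
        funext l
        simp only [Submodule.coe_add, map_add, inner_add_right, Pi.add_apply]
      map_smul' := fun c x => by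
        funext l
        simp only [Submodule.coe_smul, map_smul, inner_smul_right, Pi.smul_apply, smul_eq_mul,
          RingHom.id_apply] }
  have hF : Function.Injective F := by
    rw [injective_iff_map_eq_zero]
    rintro ⟨x, hx⟩ h0
    have h1 := casimir (q := q) (m := m) (by omega) (ι x)
    have h2 : ∑ l, ⟪ee l, ι x⟫_ℝ ^ 2 = 0 := by
      refine Finset.sum_eq_zero fun l _ => ?_
      have := congrFun h0 l
      change ⟪ee l, ι x⟫_ℝ = 0 at this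
      rw [this]
      norm_num
    have h3 : ∑ k, ‖DR (Km ℝ k) (ι x)‖ ^ 2 = 0 := by
      refine Finset.sum_eq_zero fun k _ => ?_
      rw [FX_DR x hx _ (Km_tp k), norm_zero]
      norm_num
    rw [h2, h3, sub_zero, ι.norm_map] at h1
    have h4 : ‖x‖ ^ 2 ≤ 0 := by
      have h5 : 0 < ((N : ℝ) - 2) / 2 := by linarith
      nlinarith
    have h5 : x = 0 := by
      have h6 : ‖x‖ ^ 2 = 0 := le_antisymm h4 (sq_nonneg _)
      exact norm_eq_zero.1 (pow_eq_zero_iff (two_ne_zero) |>.1 h6)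
    exact Subtype.ext h5
  have h := LinearMap.finrank_le_finrank_of_injective hF
  rw [Module.finrank_fin_fun] at h
  exact h

theorem dataS (hN : 3 ≤ N) (hι : InvR ι) : ∃ κ0 : ℝ, (N : ℝ) - 2 ≤ κ0 ∧
    LD (GS ι) (fun k : KI N => DS ι (Km ℝ k)) (eb ι) κ0 (((N : ℝ) - 2) / 2) := by
  have hN3 : (3 : ℝ) ≤ N := by exact_mod_cast hN
  obtain ⟨κ0, hκ, hLD⟩ := data (q := q) (m := m) hN
  obtain ⟨c, hc1, hc2, hc3, hc4⟩ := hLD.struc
  refine ⟨κ0, hκ, ?_, ⟨c, hc1, hc2, ?_, ?_⟩, by linarith, by linarith, eb_orth,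
    casS (by omega) hι, ?_, ?_⟩
  · intro k x y
    rw [← ι.inner_map_map, ← ι.inner_map_map x, ι_DS hι _ (Km_tp k), ι_DS hι _ (Km_tp k)]
    exact DR_skew (Km_tp k) _ _
  · intro i j x
    apply ι.injective
    have h := hc3 i j (ι x)
    simp only [map_sub, map_sum, map_smul, ι_DS hι _ (Km_tp _)]
    exact h
  · intro k x
    apply ι.injective
    have h := hc4 k (ι x)
    simp only [map_sum, map_smul, ι_DS hι _ (Km_tp _)]
    exact h
  · intro k
    obtain ⟨U, hU, h0, hadd, hder⟩ := exp_pathS (q := q) (m := m) (Km ℝ k) (Km_tp k)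
    refine ⟨fun t => isoS hι (U t) (hU t), fun t => isoS_mem hι _ _, ?_, ?_, ?_⟩
    · intro x
      apply ι.injective
      rw [isoS_apply, h0]
    · intro s t x
      apply ι.injective
      rw [isoS_apply, isoS_apply, isoS_apply, RR_RR, hadd]
    · intro x
      exact ((pj ι).hasFDerivAt).comp_hasDerivAt (0 : ℝ) (hder (ι x))
  · rintro e ⟨g, hg, he⟩ j
    apply ι.injective
    rw [he]
    exact (stdOrthonormalBasis ℝ (FX ι) j).2 g hg

end sub

end Pool.Agent.TH591.TT
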