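import Pool.Agent.TH591.TT.Op
import Pool.Agent.H888R2.KC.T1
import Pool.Agent.H888R2.KC.T5

/-!
# Tails of rotation invariant marginals
-/

set_option autoImplicit false

namespace Pool.Agent.TH591.TT

open MeasureTheory Set Matrix
open scoped ENNReal InnerProductSpace
open Pool.Agent.H212R2.KLS (mu Bdd)
open Pool.Agent.H888R2.KC (T1x.vec T1x.cm)

section rad

variable {κ : Type} [Fintype κ] {G : Set (V κ ≃ₗᵢ[ℝ] V κ)} {ρ : V κ → ℝ}

theorem exists_th {n : ℕ} (T : V κ →ₗ[ℝ] EuclideanSpace ℝ (Fin n)) (hT : ∀ x, ‖T x‖ ≤ ‖x‖)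
    (a : Fin n) : ∃ θ : V κ, ‖θ‖ ≤ 1 ∧ ∀ x, ⟪θ, x⟫_ℝ = T x a := by
  let l : V κ →ₗ[ℝ] ℝ :=
    { toFun := fun x => T x a
      map_add' := fun x y => by rw [map_add]; rfl
      map_smul' := fun c x => by rw [map_smul]; rfl }
  refine ⟨(InnerProductSpace.toDual ℝ _).symm (LinearMap.toContinuousLinearMap l), ?_, ?_⟩
  · rw [LinearIsometryEquiv.norm_map]
    apply ContinuousLinearMap.opNorm_le_bound _ zero_le_one
    intro x
    rw [one_mul]
    show ‖T x a‖ ≤ ‖x‖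
    refine le_trans ?_ (hT x)
    exact PiLp.norm_apply_le (T x) a
  · intro x
    rw [InnerProductSpace.toDual_symm_apply]
    rfl

theorem second_moment {n : ℕ} (T : V κ →ₗ[ℝ] EuclideanSpace ℝ (Fin n)) (hT : ∀ x, ‖T x‖ ≤ ‖x‖)
    (hb : Bdd ρ) (h1 : mu ρ univ = 1) (s : ℝ) (hs : 0 < s)
    (hmom : ∀ θ : V κ, ∫ x, ⟪θ, x⟫_ℝ ^ 2 ∂(mu ρ) ≤ s * ‖θ‖ ^ 2) :
    ∫⁻ X, ENNReal.ofReal (‖T X‖ ^ 2) ∂(mu ρ) ≤ ENNReal.ofReal (n * s) := by
  have : IsProbabilityMeasure (mu ρ) := ⟨h1⟩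
  obtain ⟨R, hR⟩ := hb
  choose th hth1 hth using fun a => exists_th T hT a
  have hint : ∀ i : Fin n, Integrable (fun X => ⟪th i, X⟫_ℝ ^ 2) (mu ρ) := by
    intro i
    refine Integrable.of_bound ?_ ((‖th i‖ * R) ^ 2) ?_
    · exact ((continuous_const.inner continuous_id).pow 2).aestronglyMeasurable
    · filter_upwards [Pool.Agent.H212R2.KLS.T2.ae_bdd ρ R hR] with x hx
      rw [Real.norm_eq_abs, abs_of_nonneg (sq_nonneg _)]
      have h2 := abs_real_inner_le_norm (th i) x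
      have h3 : |⟪th i, x⟫_ℝ| ≤ ‖th i‖ * R :=
        le_trans h2 (mul_le_mul_of_nonneg_left hx (norm_nonneg _))
      rw [← sq_abs]
      exact pow_le_pow_left₀ (abs_nonneg _) h3 2
  have e : ∀ X, ‖T X‖ ^ 2 = ∑ i, ⟪th i, X⟫_ℝ ^ 2 := by
    intro X
    rw [EuclideanSpace.real_norm_sq_eq]
    simp only [hth]
  simp only [e]
  rw [← ofReal_integral_eq_lintegral_ofReal (integrable_finsetSum _ fun i _ => hint i)
    (Filter.Eventually.of_forall fun X => Finset.sum_nonneg fun i _ => sq_nonneg _)]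
  apply ENNReal.ofReal_le_ofReal
  rw [integral_finsetSum _ fun i _ => hint i]
  calc ∑ i : Fin n, ∫ X, ⟪th i, X⟫_ℝ ^ 2 ∂(mu ρ) ≤ ∑ _i : Fin n, s := by
        apply Finset.sum_le_sum
        intro i _
        refine le_trans (hmom (th i)) ?_
        have : ‖th i‖ ^ 2 ≤ 1 := by
          have h3 := norm_nonneg (th i)
          have h4 := hth1 i
          nlinarith
        nlinarith
    _ = n * s := by simp

/-- tail of a rotation invariant marginal -/
theorem rad_tail (hρ : GD G ρ) (hb : Bdd ρ) (h1 : mu ρ univ = 1) (s : ℝ) (hs : 0 < s)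
    (hmom : ∀ θ : V κ, ∫ x, ⟪θ, x⟫_ℝ ^ 2 ∂(mu ρ) ≤ s * ‖θ‖ ^ 2) {n : ℕ} (hn : 1 ≤ n)
    (T : V κ →ₗ[ℝ] EuclideanSpace ℝ (Fin n)) (hT : ∀ x, ‖T x‖ ≤ ‖x‖)
    (htr : ∀ y z : EuclideanSpace ℝ (Fin n), ‖y‖ = ‖z‖ →
      ∃ g ∈ G, ∀ x, ‖T (g x) - z‖ = ‖T x - y‖) (r : ℝ) :
    mu ρ {X | r ≤ ‖T X‖} ≤
      ENNReal.ofReal (Real.exp (n * (5 / 2 - r / (20 * Real.sqrt (n * s))))) := by
  have hP : IsProbabilityMeasure (mu ρ) := ⟨h1⟩
  have hm0 : (0 : ℝ) < n := by exact_mod_cast hn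
  have hσ : 0 < Real.sqrt (n * s) := Real.sqrt_pos.2 (by positivity)
  have hTc : Continuous T := T.continuous_of_finiteDimensional
  have hmeas : Measurable fun X => T X := hTc.measurable
  have hL : IsProbabilityMeasure ((mu ρ).map fun X => T X) :=
    Measure.isProbabilityMeasure_map hmeas.aemeasurable
  have hball : ∀ y : EuclideanSpace ℝ (Fin n), ∀ d : ℝ,
      ((mu ρ).map fun X => T X) (Metric.closedBall y d) =
      mu ρ {X | T X ∈ Metric.closedBall y d} := fun y d =>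
    Measure.map_apply hmeas Metric.isClosed_closedBall.measurableSet
  have key := Pool.Agent.H317R2.KLS.core_tail hn ((mu ρ).map fun X => T X)
    (Real.sqrt (n * s)) hσ ?_ ?_ ?_ r
  · have hset : MeasurableSet {y : EuclideanSpace ℝ (Fin n) | r ≤ ‖y‖} :=
      (isClosed_le continuous_const continuous_norm).measurableSet
    rw [Measure.map_apply hmeas hset] at key
    exact key
  · intro y z t ht0 ht1
    rw [hball, hball, hball, ENNReal.toReal_rpow, ENNReal.toReal_rpow, ← ENNReal.toReal_mul]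
    exact ENNReal.toReal_mono (measure_ne_top _ _) (Pool.Agent.H888R2.KC.T1x.lin_ball ρ hρ.nonneg
      hρ.meas hρ.logc T hTc _ y z t ht0 ht1)
  · intro y z hyz
    obtain ⟨g, hg, hgT⟩ := htr y z hyz
    rw [hball, hball]
    have hinv := hρ.map_mu g hg
    have hset : MeasurableSet {X | T X ∈ Metric.closedBall z (√(n * s) / 100)} :=
      (Metric.isClosed_closedBall.preimage hTc).measurableSet
    conv_rhs => rw [← hinv, Measure.map_apply g.continuous.measurable hset]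
    congr 1
    ext X
    show T X ∈ Metric.closedBall y _ ↔ T (g X) ∈ Metric.closedBall z _
    rw [mem_closedBall_iff_norm, mem_closedBall_iff_norm, hgT]
  · have hset : MeasurableSet {y : EuclideanSpace ℝ (Fin n) |
        2 * Real.sqrt (n * s) < ‖y‖} :=
      (isOpen_lt continuous_const continuous_norm).measurableSet
    rw [Measure.map_apply hmeas hset]
    have h2 := second_moment T hT hb h1 s hs hmom
    have h3 := mul_meas_ge_le_lintegral₀ (μ := mu ρ)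
      (f := fun X => ENNReal.ofReal (‖T X‖ ^ 2)) (by
        apply Measurable.aemeasurable
        exact ENNReal.measurable_ofReal.comp (hTc.norm.pow 2).measurable)
      (ENNReal.ofReal (4 * (n * s)))
    have h4 : (fun X => T X) ⁻¹' {y : EuclideanSpace ℝ (Fin n) |
          2 * Real.sqrt (n * s) < ‖y‖} ⊆
        {X | ENNReal.ofReal (4 * (n * s)) ≤ ENNReal.ofReal (‖T X‖ ^ 2)} := by
      intro X hX
      have hX' : 2 * Real.sqrt (n * s) < ‖T X‖ := hX
      show ENNReal.ofReal (4 * (n * s)) ≤ ENNReal.ofReal (‖T X‖ ^ 2)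
      apply ENNReal.ofReal_le_ofReal
      have h5 : (2 * Real.sqrt (n * s)) ^ 2 = 4 * (n * s) := by
        rw [mul_pow, Real.sq_sqrt (by positivity)]; norm_num
      rw [← h5]
      exact pow_le_pow_left₀ (by positivity) hX'.le 2
    have h5 := le_trans (mul_le_mul_right (measure_mono (μ := mu ρ) h4)
      (ENNReal.ofReal (4 * (n * s)))) (le_trans h3 h2)
    have h6 : ENNReal.ofReal (n * s) =
        ENNReal.ofReal (4 * (n * s)) * ENNReal.ofReal (1 / 4) := by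
      rw [← ENNReal.ofReal_mul (by positivity)]
      congr 1; ring
    rw [h6] at h5
    refine (ENNReal.mul_le_mul_iff_right ?_ ENNReal.ofReal_ne_top).1 h5
    rw [Ne, ENNReal.ofReal_eq_zero, not_le]
    positivity

end rad

section trans

variable {N : ℕ}

/-- the orthogonal group is transitive on spheres -/
theorem trans_full (y z : EuclideanSpace ℝ (Fin N)) (h : ‖y‖ = ‖z‖) :
    ∃ g ∈ Matrix.orthogonalGroup (Fin N) ℝ, tm g y = z := by
  by_cases hy : y = 0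
  · refine ⟨1, one_mem _, ?_⟩
    have hz : z = 0 := by
      rw [← norm_eq_zero, ← h, hy, norm_zero]
    rw [tm_one, hy, hz]
  have hn : 0 < ‖y‖ := norm_pos_iff.2 hy
  obtain ⟨i0, -⟩ : ∃ i0 : Fin N, True := by
    by_contra hcon
    apply hy
    ext i
    exact absurd ⟨i, trivial⟩ hcon
  have key : ∀ w : EuclideanSpace ℝ (Fin N), ‖w‖ = ‖y‖ → ∃ W ∈ Matrix.orthogonalGroup (Fin N) ℝ,
      tm W (EuclideanSpace.single i0 ‖y‖) = w := by
    intro w hw
    obtain ⟨W, hW, hWi⟩ := Pool.Agent.H888R2.KC.T5x.exists_unitary (𝕜 := ℝ) i0 (‖y‖⁻¹ • w) (by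
      rw [norm_smul, Real.norm_of_nonneg (inv_nonneg.2 hn.le), hw, inv_mul_cancel₀ hn.ne'])
    refine ⟨W, hW, ?_⟩
    ext i
    rw [tm_apply]
    show (W *ᵥ (EuclideanSpace.single i0 ‖y‖).ofLp) i = w i
    rw [Matrix.mulVec, dotProduct, Finset.sum_eq_single i0]
    · rw [hWi i]
      simp only [PiLp.smul_apply, smul_eq_mul, EuclideanSpace.single_apply, if_true]
      field_simp
    · intro b _ hb
      simp [hb]
    · intro h
      exact absurd (Finset.mem_univ i0) h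
  obtain ⟨W1, hW1, e1⟩ := key y rfl
  obtain ⟨W2, hW2, e2⟩ := key z h.symm
  refine ⟨W2 * W1ᵀ, mul_mem hW2 (orth_tp hW1), ?_⟩
  have h3 : tm W1ᵀ (tm W1 (EuclideanSpace.single i0 ‖y‖)) = EuclideanSpace.single i0 ‖y‖ := by
    rw [← tm_mul, orth2 hW1, tm_one]
  rw [e1] at h3
  rw [tm_mul, h3, e2]

end trans

section cols

variable {q m N : ℕ}

theorem tm_le_hs {a b : Type} [Fintype a] [Fintype b] [DecidableEq b] (X : Matrix a b ℝ)
    (v : EuclideanSpace ℝ b) : ‖tm X v‖ ^ 2 ≤ hs X X * ‖v‖ ^ 2 := by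
  rw [tm_apply, EuclideanSpace.real_norm_sq_eq, EuclideanSpace.real_norm_sq_eq, hs,
    Finset.sum_mul]
  refine Finset.sum_le_sum fun i _ => ?_
  show (X *ᵥ v.ofLp) i ^ 2 ≤ _
  rw [Matrix.mulVec, dotProduct]
  have := Finset.sum_mul_sq_le_sq_mul_sq Finset.univ (fun j => X i j) (fun j => v j)
  simpa [sq] using this

theorem hs_mt_le (x : V (Ix q m N)) (j : Fin q) : hs (mt j x) (mt j x) ≤ ‖x‖ ^ 2 := by
  rw [norm_mv]
  have h1 := Finset.single_le_sum (f := fun j : Fin q => hs (mt j x) (mt j x))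
    (fun j _ => hs_nonneg _) (Finset.mem_univ j)
  have h2 := hs_nonneg (vt x)
  linarith

theorem hs_vt_le (x : V (Ix q m N)) : hs (vt x) (vt x) ≤ ‖x‖ ^ 2 := by
  rw [norm_mv]
  have h1 := Finset.sum_nonneg fun (j : Fin q) (_ : j ∈ Finset.univ) => hs_nonneg (mt j x)
  linarith

/-- `Y w` -/
noncomputable def Tv (w : EuclideanSpace ℝ (Fin m)) :
    V (Ix q m N) →ₗ[ℝ] EuclideanSpace ℝ (Fin N) where
  toFun x := tm (vt x) w
  map_add' x y := by rw [map_add, map_add]; rfl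
  map_smul' c x := by rw [map_smul, map_smul]; rfl

theorem Tv_tail (hN : 1 ≤ N) {ρ : V (Ix q m N) → ℝ} (hρ : GD (GG q m N) ρ) (hb : Bdd ρ)
    (h1 : mu ρ univ = 1) (s : ℝ) (hs : 0 < s)
    (hmom : ∀ θ : V (Ix q m N), ∫ x, ⟪θ, x⟫_ℝ ^ 2 ∂(mu ρ) ≤ s * ‖θ‖ ^ 2)
    (w : EuclideanSpace ℝ (Fin m)) (hw : ‖w‖ ≤ 1) (r : ℝ) :
    mu ρ {x | r ≤ ‖tm (vt x) w‖} ≤
      ENNReal.ofReal (Real.exp (N * (5 / 2 - r / (20 * Real.sqrt (N * s))))) := by
  refine rad_tail hρ hb h1 s hs hmom hN (Tv w) (fun x => ?_) (fun y z hyz => ?_) r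
  · show ‖tm (vt x) w‖ ≤ ‖x‖
    have h2 : ‖tm (vt x) w‖ ^ 2 ≤ ‖x‖ ^ 2 := by
      refine (tm_le_hs _ _).trans ?_
      have h3 : ‖w‖ ^ 2 ≤ 1 := pow_le_one₀ (norm_nonneg _) hw
      have h4 := hs_vt_le x
      have h5 := hs_nonneg (vt x)
      nlinarith
    exact (abs_le_of_sq_le_sq' h2 (norm_nonneg _)).2
  · obtain ⟨g, hg, hgy⟩ := trans_full y z hyz
    refine ⟨iso g hg, iso_mem g hg, fun x => ?_⟩
    show ‖tm (vt (RR g x)) w - z‖ = ‖tm (vt x) w - y‖
    rw [vt_RR, tm_mul, ← hgy, ← map_sub, norm_orth g (orth2 hg)]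

/-- `α X_kj + β X_jk`, `k ≠ j` -/
noncomputable def Tc (α β : ℝ) (l : Fin q) (j : Fin N) :
    V (Ix q m N) →ₗ[ℝ] EuclideanSpace ℝ (Fin (T1x.cm ℝ j)) where
  toFun x := T1x.vec j fun k => α * mt l x k j + β * mt l x j k
  map_add' x y := by
    have h := Pool.Agent.H888R2.KC.T1x.vec_comb j 1 1
      (fun k => α * mt l x k j + β * mt l x j k) (fun k => α * mt l y k j + β * mt l y j k)
    simp only [one_smul] at h
    rw [← h]
    congr 1
    funext k
    simp only [map_add, Matrix.add_apply, Pi.add_apply, Pi.smul_apply, smul_eq_mul]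
    ring
  map_smul' c x := by
    have h := Pool.Agent.H888R2.KC.T1x.vec_comb j c 0
      (fun k => α * mt l x k j + β * mt l x j k) 0
    simp only [zero_smul, add_zero] at h
    rw [RingHom.id_apply, ← h]
    congr 1
    funext k
    simp only [map_smul, Matrix.smul_apply, Pi.add_apply, Pi.smul_apply, smul_eq_mul, smul_zero,
      add_zero]
    ring

theorem Tc_norm (α β : ℝ) (hα : 0 ≤ α) (hβ : 0 ≤ β) (hαβ : α + β = 1) (l : Fin q) (j : Fin N)
    (x : V (Ix q m N)) : ‖Tc α β l j x‖ ≤ ‖x‖ := by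
  have h2 : ‖Tc α β l j x‖ ^ 2 ≤ ‖x‖ ^ 2 := by
    have h3 := Pool.Agent.H888R2.KC.T1x.norm_vec_full (𝕜 := ℝ) j
      (fun k => α * mt l x k j + β * mt l x j k)
    have h4 : ‖Tc α β l j x‖ ^ 2 ≤ ∑ k, ‖α * mt l x k j + β * mt l x j k‖ ^ 2 := by
      rw [← h3]
      have : 0 ≤ ‖α * mt l x j j + β * mt l x j j‖ ^ 2 := sq_nonneg _
      show ‖T1x.vec j fun k => α * mt l x k j + β * mt l x j k‖ ^ 2 ≤ _
      linarith
    refine h4.trans ?_
    have h5 : ∀ k, ‖α * mt l x k j + β * mt l x j k‖ ^ 2 ≤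
        α * (mt l x k j) ^ 2 + β * (mt l x j k) ^ 2 := by
      intro k
      rw [Real.norm_eq_abs, sq_abs]
      have e : α = 1 - β := by linarith
      have : α * (mt l x k j) ^ 2 + β * (mt l x j k) ^ 2 - (α * mt l x k j + β * mt l x j k) ^ 2 =
          α * β * (mt l x k j - mt l x j k) ^ 2 := by
        rw [e]; ring
      have h6 : 0 ≤ α * β * (mt l x k j - mt l x j k) ^ 2 := by positivity
      linarith
    have h6 : ∑ k, (mt l x k j) ^ 2 ≤ hs (mt l x) (mt l x) := by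
      unfold hs
      refine Finset.sum_le_sum fun k _ => ?_
      have := Finset.single_le_sum (f := fun b => mt l x k b * mt l x k b)
        (fun b _ => mul_self_nonneg _) (Finset.mem_univ j)
      rw [sq]
      exact this
    have h7 : ∑ k, (mt l x j k) ^ 2 ≤ hs (mt l x) (mt l x) := by
      unfold hs
      have := Finset.single_le_sum (f := fun a => ∑ b, mt l x a b * mt l x a b)
        (fun b _ => Finset.sum_nonneg fun c _ => mul_self_nonneg _) (Finset.mem_univ j)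
      simp only [sq]
      exact this
    have h8 := hs_mt_le x l
    calc ∑ k, ‖α * mt l x k j + β * mt l x j k‖ ^ 2 ≤
          ∑ k, (α * (mt l x k j) ^ 2 + β * (mt l x j k) ^ 2) := Finset.sum_le_sum fun k _ => h5 k
      _ = α * ∑ k, (mt l x k j) ^ 2 + β * ∑ k, (mt l x j k) ^ 2 := by
          rw [Finset.sum_add_distrib, Finset.mul_sum, Finset.mul_sum]
      _ ≤ α * ‖x‖ ^ 2 + β * ‖x‖ ^ 2 := add_le_add
          (mul_le_mul_of_nonneg_left (h6.trans h8) hα) (mul_le_mul_of_nonneg_left (h7.trans h8) hβ)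
      _ = ‖x‖ ^ 2 := by rw [← add_mul, hαβ, one_mul]
  exact (abs_le_of_sq_le_sq' h2 (norm_nonneg _)).2

theorem Tc_RR (α β : ℝ) (l : Fin q) (j : Fin N) (g : Matrix (Fin N) (Fin N) ℝ)
    (hg : ∀ b, g j b = if b = j then 1 else 0) (x : V (Ix q m N)) :
    Tc α β l j (RR g x) = T1x.vec j (g *ᵥ fun k => α * mt l x k j + β * mt l x j k) := by
  show T1x.vec j (fun k => α * mt l (RR g x) k j + β * mt l (RR g x) j k) = _
  congr 1
  funext k
  have e1 : mt l (RR g x) k j = ∑ a, g k a * mt l x a j := by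
    rw [mt_RR, Matrix.mul_assoc, Matrix.mul_apply]
    refine Finset.sum_congr rfl fun a _ => ?_
    congr 1
    rw [Matrix.mul_apply, Finset.sum_eq_single j]
    · rw [Matrix.transpose_apply, hg]; simp
    · intro b _ hb
      rw [Matrix.transpose_apply, hg, if_neg hb]; simp
    · simp
  have e2 : mt l (RR g x) j k = ∑ a, g k a * mt l x j a := by
    rw [mt_RR, Matrix.mul_apply]
    refine Finset.sum_congr rfl fun a _ => ?_
    rw [Matrix.transpose_apply, mul_comm]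
    congr 1
    rw [Matrix.mul_apply, Finset.sum_eq_single j]
    · rw [hg]; simp
    · intro b _ hb
      rw [hg, if_neg hb]; simp
    · simp
  rw [e1, e2, Matrix.mulVec, dotProduct, Finset.mul_sum, Finset.mul_sum, ← Finset.sum_add_distrib]
  refine Finset.sum_congr rfl fun a _ => by ring

theorem Tc_tail (hN : 2 ≤ N) {ρ : V (Ix q m N) → ℝ} (hρ : GD (GG q m N) ρ) (hb : Bdd ρ)
    (h1 : mu ρ univ = 1) (s : ℝ) (hs : 0 < s)
    (hmom : ∀ θ : V (Ix q m N), ∫ x, ⟪θ, x⟫_ℝ ^ 2 ∂(mu ρ) ≤ s * ‖θ‖ ^ 2)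
    (α β : ℝ) (hα : 0 ≤ α) (hβ : 0 ≤ β) (hαβ : α + β = 1) (l : Fin q) (j : Fin N) (u : ℝ) :
    mu ρ {x | u * Real.sqrt (N * s) ≤ ‖Tc α β l j x‖} ≤
      ENNReal.ofReal (Real.exp (N * (5 - u / 30))) := by
  have hP : IsProbabilityMeasure (mu ρ) := ⟨h1⟩
  have hN0 : (0 : ℝ) < N := by exact_mod_cast (by omega : 0 < N)
  rcases lt_or_ge u 0 with hu | hu
  · calc mu ρ {x | u * Real.sqrt (N * s) ≤ ‖Tc α β l j x‖} ≤ 1 := prob_le_one
      _ = ENNReal.ofReal 1 := ENNReal.ofReal_one.symm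
      _ ≤ _ := by
        apply ENNReal.ofReal_le_ofReal
        apply Real.one_le_exp
        apply mul_nonneg hN0.le
        linarith
  obtain ⟨hm1, hm2, hm3⟩ := Pool.Agent.H888R2.KC.T1x.card_le (𝕜 := ℝ) j hN
  have hmR1 : (1 : ℝ) ≤ T1x.cm ℝ j := by exact_mod_cast hm1
  have hmR2 : (N : ℝ) ≤ 2 * T1x.cm ℝ j := by
    have : N ≤ 2 * T1x.cm ℝ j := by omega
    exact_mod_cast this
  have hmR3 : (T1x.cm ℝ j : ℝ) ≤ 2 * N := by
    have : T1x.cm ℝ j ≤ 2 * N := by omega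
    exact_mod_cast this
  refine le_trans (rad_tail hρ hb h1 s hs hmom hm1 (Tc α β l j) (Tc_norm α β hα hβ hαβ l j)
    (fun y z hyz => ?_) (u * Real.sqrt (N * s))) ?_
  · obtain ⟨w, hw0, hw⟩ := Pool.Agent.H888R2.KC.T1x.vec_surj j y
    obtain ⟨w', hw0', hw'⟩ := Pool.Agent.H888R2.KC.T1x.vec_surj j z
    have hn : ∑ k, ‖w k‖ ^ 2 = ∑ k, ‖w' k‖ ^ 2 := by
      rw [← Pool.Agent.H888R2.KC.T1x.norm_vec_full j w,
        ← Pool.Agent.H888R2.KC.T1x.norm_vec_full j w', hw, hw', hw0, hw0', hyz]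
    obtain ⟨g, hg, hgw, hgj⟩ := Pool.Agent.H888R2.KC.T1x.trans_off j w w' hw0 hw0' hn
    refine ⟨iso g hg, iso_mem g hg, fun x => ?_⟩
    show ‖Tc α β l j (RR g x) - z‖ = _
    rw [Tc_RR α β l j g hgj, ← hw, ← hw', ← hgw, Pool.Agent.H888R2.KC.T1x.vec_unitary j g hg hgj]
    rfl
  apply ENNReal.ofReal_le_ofReal
  apply Real.exp_le_exp.2
  set m' : ℝ := (T1x.cm ℝ j : ℝ) with hm
  have hm0 : 0 < m' := by linarith
  set A := Real.sqrt (N * s) with hA
  set B := Real.sqrt (m' * s) with hB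
  have hA0 : 0 < A := Real.sqrt_pos.2 (by positivity)
  have hB0 : 0 < B := Real.sqrt_pos.2 (by positivity)
  have hA2 : A ^ 2 = N * s := Real.sq_sqrt (by positivity)
  have hB2 : B ^ 2 = m' * s := Real.sq_sqrt (by positivity)
  have hkey : 2 * N * B ≤ 3 * m' * A := by
    have h2 : (2 * N * B) ^ 2 ≤ (3 * m' * A) ^ 2 := by
      rw [mul_pow, mul_pow, mul_pow, mul_pow, hA2, hB2]
      have h3 : 0 ≤ N * m' * s * (9 * m' - 4 * N) := by
        apply mul_nonneg (by positivity)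
        linarith
      nlinarith
    exact le_of_sq_le_sq h2 (by positivity)
  have h4 : N * (u / 30) ≤ m' * (u * A / (20 * B)) := by
    rw [mul_div_assoc', mul_div_assoc', div_le_div_iff₀ (by norm_num) (by positivity)]
    nlinarith [mul_le_mul_of_nonneg_left hkey hu]
  have h5 : m' * (5 / 2) ≤ N * 5 := by linarith
  have h6 : m' * (5 / 2 - u * A / (20 * B)) = m' * (5 / 2) - m' * (u * A / (20 * B)) := by ring
  rw [h6]
  linarith
where
  le_of_sq_le_sq {a b : ℝ} (h : a ^ 2 ≤ b ^ 2) (hb : 0 ≤ b) : a ≤ b :=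
    (abs_le_of_sq_le_sq' h hb).2

end cols

end Pool.Agent.TH591.TT
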